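import Pool.Agent.Van.Cell

/-!
A base cube, cut into long thin cells
-/

set_option autoImplicit false

namespace Pool.Agent.Van

open MeasureTheory Set
open scoped ENNReal NNReal
open Pool.Agent.Vor (E dl line Near Faces)
open Pool.Agent.Vsn (LL lw ms)

-- BEGIN chd
/-- Otherwise `∑ j, p j * ∑ i, p i * α i j > ∑ j, p j * (Θ/μ) = Θ`. -/
theorem choose_dir {n : ℕ} (p : Fin n → ℝ) (hp : ∀ i, 0 ≤ p i) (hμ : 0 < ∑ i, p i)
    (α : Fin n → Fin n → ℝ) :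
    ∃ j0, ∑ i, p i * α i j0 ≤ (∑ i, ∑ j, p i * p j * α i j) / ∑ i, p i := by
  by_contra hcon
  push Not at hcon
  obtain ⟨j1, hj1⟩ : ∃ j, 0 < p j := by
    by_contra h
    push Not at h
    have : ∑ i, p i ≤ 0 := Finset.sum_nonpos fun i _ => h i
    linarith
  have h1 : ∑ j, p j * ((∑ i, ∑ j, p i * p j * α i j) / ∑ i, p i) <
      ∑ j, p j * ∑ i, p i * α i j :=
    Finset.sum_lt_sum (fun j _ => mul_le_mul_of_nonneg_left (hcon j).le (hp j))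
      ⟨j1, Finset.mem_univ _, mul_lt_mul_of_pos_left (hcon j1) hj1⟩
  rw [← Finset.sum_mul, mul_div_cancel₀ _ hμ.ne'] at h1
  have h2 : ∑ j, p j * ∑ i, p i * α i j = ∑ i, ∑ j, p i * p j * α i j := by
    rw [Finset.sum_comm]
    refine Finset.sum_congr rfl fun j _ => ?_
    rw [Finset.mul_sum]
    exact Finset.sum_congr rfl fun i _ => by ring
  linarith
-- END chd

-- BEGIN rgr
private theorem rgr_one {σ s : ℝ} (hs : 0 < s) (h3 : 3 * s ≤ σ) :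
    ∃ I : Finset ℤ, (∀ m ∈ I, |s * (m : ℝ)| ≤ σ + s / 2) ∧
      (∀ t : ℝ, |t| ≤ σ → ∃ m ∈ I, |t - s * (m : ℝ)| ≤ s / 2) ∧ (I.card : ℝ) ≤ 3 * σ / s := by
  have hσ : 0 < σ := by linarith
  set N : ℤ := ⌊σ / s + 1 / 2⌋ with hN
  have hN0 : 0 ≤ N := Int.floor_nonneg.2 (by positivity)
  have hN1 : (N : ℝ) ≤ σ / s + 1 / 2 := Int.floor_le _
  refine ⟨Finset.Icc (-N) N, ?_, ?_, ?_⟩
  · intro m hm
    rw [Finset.mem_Icc] at hm
    have h1 : |m| ≤ N := abs_le.2 hm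
    have h2 : |(m : ℝ)| ≤ N := by
      rw [← Int.cast_abs]
      exact_mod_cast h1
    rw [abs_mul, abs_of_pos hs]
    calc s * |(m : ℝ)| ≤ s * (σ / s + 1 / 2) := mul_le_mul_of_nonneg_left (h2.trans hN1) hs.le
      _ = σ + s / 2 := by
        field_simp
  · intro t ht
    refine ⟨round (t / s), ?_, ?_⟩
    · have h1 := abs_sub_round (t / s)
      have h2 : |t / s| ≤ σ / s := by
        rw [abs_div, abs_of_pos hs]
        exact div_le_div_of_nonneg_right ht hs.le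
      have h3' : |((round (t / s) : ℤ) : ℝ)| ≤ σ / s + 1 / 2 := by
        have h5 := abs_sub_abs_le_abs_sub ((round (t / s) : ℤ) : ℝ) (t / s)
        rw [abs_sub_comm] at h5
        linarith
      have h7 : |round (t / s)| ≤ N := by
        rw [hN, Int.le_floor, Int.cast_abs]
        exact h3'
      rw [Finset.mem_Icc]
      exact ⟨(abs_le.1 h7).1, (abs_le.1 h7).2⟩
    · have h1 := abs_sub_round (t / s)
      have h2 : t - s * ((round (t / s) : ℤ) : ℝ) = s * (t / s - ((round (t / s) : ℤ) : ℝ)) := by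
        rw [mul_sub, mul_div_cancel₀ _ hs.ne']
      rw [h2, abs_mul, abs_of_pos hs]
      nlinarith
  · rw [Int.card_Icc]
    have h3' : ((N + 1 - -N).toNat : ℝ) = 2 * (N : ℝ) + 1 := by
      have h4 : ((N + 1 - -N).toNat : ℤ) = N + 1 - -N := Int.toNat_of_nonneg (by omega)
      have h5 : (((N + 1 - -N).toNat : ℤ) : ℝ) = ((N + 1 - -N : ℤ) : ℝ) := by rw [h4]
      rw [Int.cast_natCast] at h5
      rw [h5]
      push_cast
      ring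
    rw [h3']
    have h6 : 2 ≤ σ / s := by
      rw [le_div_iff₀ hs]
      linarith
    have h7 : 3 * σ / s = 3 * (σ / s) := by ring
    rw [h7]
    linarith

/-- `G` = the points `x + (m₀ L) b 0 + (m₁ δ) b 1 + (m₂ δ) b 2`, `|m₀| ≤ ⌊σ/L + 1/2⌋`, `|m₁|, |m₂| ≤ ⌊σ/δ + 1/2⌋`, `m_c = round (⟪b c, z - x⟫/step)`; number `≤ (2σ/L + 2)(2σ/δ + 2)² ≤ (3σ/L)(3σ/δ)²`; norm `≤ (σ + L/2) + 2 (σ + δ/2) ≤ 4σ`. -/
theorem rgrid (b : OrthonormalBasis (Fin 3) ℝ E) (x : E) {σ L δ : ℝ} (hL : 0 < L) (hδ : 0 < δ)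
    (hL3 : 3 * L ≤ σ) (hδ3 : 3 * δ ≤ σ) :
    ∃ G : Finset E, (∀ g ∈ G, ‖g - x‖ ≤ 4 * σ) ∧
      (∀ z : E, ‖z - x‖ ≤ σ → ∃ g ∈ G, |(inner ℝ (b 0) (z - g) : ℝ)| ≤ L / 2 ∧
        |(inner ℝ (b 1) (z - g) : ℝ)| ≤ δ / 2 ∧ |(inner ℝ (b 2) (z - g) : ℝ)| ≤ δ / 2) ∧
      (G.card : ℝ) ≤ 27 * σ ^ 3 / (L * δ ^ 2) := by
  classical
  have hσ : 0 < σ := by linarith
  obtain ⟨I, hI1, hI2, hI3⟩ := rgr_one hL hL3
  obtain ⟨J, hJ1, hJ2, hJ3⟩ := rgr_one hδ hδ3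
  have hb := orthonormal_iff_ite.1 b.orthonormal
  have hbn : ∀ c, ‖b c‖ = 1 := fun c => b.orthonormal.1 c
  refine ⟨(I ×ˢ (J ×ˢ J)).image (fun m : ℤ × ℤ × ℤ => x + ((L * (m.1 : ℝ)) • b 0 + ((δ * (m.2.1 : ℝ)) • b 1 +
    (δ * (m.2.2 : ℝ)) • b 2))), ?_, ?_, ?_⟩
  · intro g hg
    obtain ⟨m, hm, rfl⟩ := Finset.mem_image.1 hg
    rw [Finset.mem_product, Finset.mem_product] at hm
    obtain ⟨hm0, hm1, hm2⟩ := hm
    rw [add_sub_cancel_left]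
    have h0 := hI1 _ hm0
    have h1 := hJ1 _ hm1
    have h2 := hJ1 _ hm2
    calc ‖(L * (m.1 : ℝ)) • b 0 + ((δ * (m.2.1 : ℝ)) • b 1 + (δ * (m.2.2 : ℝ)) • b 2)‖
        ≤ ‖(L * (m.1 : ℝ)) • b 0‖ + (‖(δ * (m.2.1 : ℝ)) • b 1‖ + ‖(δ * (m.2.2 : ℝ)) • b 2‖) :=
          (norm_add_le _ _).trans (add_le_add_right (norm_add_le _ _) _)
      _ = |L * (m.1 : ℝ)| + (|δ * (m.2.1 : ℝ)| + |δ * (m.2.2 : ℝ)|) := by
          rw [norm_smul, norm_smul, norm_smul, hbn, hbn, hbn, Real.norm_eq_abs, Real.norm_eq_abs, Real.norm_eq_abs,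
            mul_one, mul_one, mul_one]
      _ ≤ 4 * σ := by linarith
  · intro z hz
    have hc : ∀ c, |(inner ℝ (b c) (z - x) : ℝ)| ≤ σ := by
      intro c
      refine (abs_real_inner_le_norm _ _).trans ?_
      rw [hbn, one_mul]
      exact hz
    obtain ⟨m0, hm0, e0⟩ := hI2 _ (hc 0)
    obtain ⟨m1, hm1, e1⟩ := hJ2 _ (hc 1)
    obtain ⟨m2, hm2, e2⟩ := hJ2 _ (hc 2)
    refine ⟨_, Finset.mem_image.2 ⟨(m0, m1, m2), Finset.mem_product.2 ⟨hm0, Finset.mem_product.2 ⟨hm1, hm2⟩⟩, rfl⟩,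
      ?_, ?_, ?_⟩
    · have h1 : (inner ℝ (b 0) (z - (x + ((L * (m0 : ℝ)) • b 0 + ((δ * (m1 : ℝ)) • b 1 +
          (δ * (m2 : ℝ)) • b 2)))) : ℝ) = inner ℝ (b 0) (z - x) - L * (m0 : ℝ) := by
        rw [← sub_sub, inner_sub_right (b 0) (z - x), inner_add_right, inner_add_right, inner_smul_right,
          inner_smul_right, inner_smul_right, hb, hb, hb]
        simp
      show |(inner ℝ (b 0) (z - (x + ((L * (m0 : ℝ)) • b 0 + ((δ * (m1 : ℝ)) • b 1 +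
          (δ * (m2 : ℝ)) • b 2)))) : ℝ)| ≤ L / 2
      rw [h1]
      exact e0
    · have h1 : (inner ℝ (b 1) (z - (x + ((L * (m0 : ℝ)) • b 0 + ((δ * (m1 : ℝ)) • b 1 +
          (δ * (m2 : ℝ)) • b 2)))) : ℝ) = inner ℝ (b 1) (z - x) - δ * (m1 : ℝ) := by
        rw [← sub_sub, inner_sub_right (b 1) (z - x), inner_add_right, inner_add_right, inner_smul_right,
          inner_smul_right, inner_smul_right, hb, hb, hb]
        simp
      show |(inner ℝ (b 1) (z - (x + ((L * (m0 : ℝ)) • b 0 + ((δ * (m1 : ℝ)) • b 1 +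
          (δ * (m2 : ℝ)) • b 2)))) : ℝ)| ≤ δ / 2
      rw [h1]
      exact e1
    · have h1 : (inner ℝ (b 2) (z - (x + ((L * (m0 : ℝ)) • b 0 + ((δ * (m1 : ℝ)) • b 1 +
          (δ * (m2 : ℝ)) • b 2)))) : ℝ) = inner ℝ (b 2) (z - x) - δ * (m2 : ℝ) := by
        rw [← sub_sub, inner_sub_right (b 2) (z - x), inner_add_right, inner_add_right, inner_smul_right,
          inner_smul_right, inner_smul_right, hb, hb, hb]
        simp
      show |(inner ℝ (b 2) (z - (x + ((L * (m0 : ℝ)) • b 0 + ((δ * (m1 : ℝ)) • b 1 +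
          (δ * (m2 : ℝ)) • b 2)))) : ℝ)| ≤ δ / 2
      rw [h1]
      exact e2
  · have h1 : ((((I ×ˢ (J ×ˢ J)).image (fun m : ℤ × ℤ × ℤ => x + ((L * (m.1 : ℝ)) • b 0 + ((δ * (m.2.1 : ℝ)) • b 1 +
        (δ * (m.2.2 : ℝ)) • b 2)))).card : ℕ) : ℝ) ≤ ((I.card * (J.card * J.card) : ℕ) : ℝ) := by
      have h2 := Finset.card_image_le (s := I ×ˢ (J ×ˢ J)) (f := fun m : ℤ × ℤ × ℤ => x + ((L * (m.1 : ℝ)) • b 0 +
        ((δ * (m.2.1 : ℝ)) • b 1 + (δ * (m.2.2 : ℝ)) • b 2)))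
      rw [Finset.card_product, Finset.card_product] at h2
      exact_mod_cast h2
    refine h1.trans ?_
    push_cast
    have h3 : 27 * σ ^ 3 / (L * δ ^ 2) = (3 * σ / L) * ((3 * σ / δ) * (3 * σ / δ)) := by
      field_simp
      norm_num
    rw [h3]
    have h4 : (0 : ℝ) ≤ 3 * σ / δ := by positivity
    have h5 : (0 : ℝ) ≤ 3 * σ / L := by positivity
    exact mul_le_mul hI3 (mul_le_mul hJ3 hJ3 (Nat.cast_nonneg _) h4) (by positivity) h5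
-- END rgr

-- BEGIN par
/-- `δ = ρ/(40 √μ)`, `τ = 40000 √Θ/μ + 50 δ/ρ`, `L = δ/(4τ)`. `√μ > 4.24`. `Θ/(μτ) ≤ √Θ/40000 ≤ μ/40000` and `(L/δ) Θ/(μτ) = Θ/(4 μ τ²) ≤ μ/(4 · 40000²)` (if `Θ = 0` both are 0). `27 (ρ/41)³/(L δ²) = 108 τ (ρ/(41 δ))³ ≤ 108 τ μ √μ = 4320000 √μ √Θ + 135 μ`. -/
theorem par_choice {ρ μ Θ : ℝ} (hρ : 0 < ρ) (hμ : 18 < μ) (h0 : 0 ≤ Θ) (h1 : Θ ≤ μ ^ 2) :
    ∃ δ τ L : ℝ, 0 < δ ∧ 160 * δ ≤ ρ ∧ 1600 * (δ ^ 2 * μ) = ρ ^ 2 ∧ 0 < τ ∧ 0 < L ∧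
      200 * L ≤ ρ ∧ L * τ ≤ δ / 4 ∧ (1 + L / δ) * (Θ / μ / τ) ≤ μ / 20000 ∧
      27 * (ρ / 41) ^ 3 / (L * δ ^ 2) ≤ 5000000 * (μ + Real.sqrt (μ * Θ)) := by
  have hμ0 : (0 : ℝ) < μ := by linarith
  obtain ⟨s, hs0, hs⟩ : ∃ s : ℝ, 0 < s ∧ μ = s ^ 2 :=
    ⟨Real.sqrt μ, Real.sqrt_pos.2 hμ0, (Real.sq_sqrt hμ0.le).symm⟩
  obtain ⟨t, ht0, ht⟩ : ∃ t : ℝ, 0 ≤ t ∧ Θ = t ^ 2 :=
    ⟨Real.sqrt Θ, Real.sqrt_nonneg _, (Real.sq_sqrt h0).symm⟩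
  subst hs ht
  have hs4 : (4 : ℝ) < s := by nlinarith
  have hts : t ≤ s ^ 2 := by
    have := abs_le_of_sq_le_sq h1 (sq_nonneg s)
    exact le_trans (le_abs_self t) this
  have hsq : Real.sqrt (s ^ 2 * t ^ 2) = s * t := by
    rw [← mul_pow]
    exact Real.sqrt_sq (mul_nonneg hs0.le ht0)
  rw [hsq]
  obtain ⟨τ, hτ⟩ : ∃ τ : ℝ, τ = 40000 * t / s ^ 2 + 5 / (4 * s) := ⟨_, rfl⟩
  have hτ2 : τ * s ^ 2 = 40000 * t + 5 / 4 * s := by
    rw [hτ]; field_simp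
  have hτ0 : 0 < τ := by
    rw [hτ]; positivity
  have hτ1 : 5 / (4 * s) ≤ τ := by
    rw [hτ]
    have : 0 ≤ 40000 * t / s ^ 2 := by positivity
    linarith
  have hδ0 : 0 < ρ / (40 * s) := by positivity
  refine ⟨ρ / (40 * s), τ, ρ / (160 * s * τ), hδ0, ?_, ?_, hτ0, by positivity, ?_, ?_, ?_, ?_⟩
  · rw [← mul_div_assoc, div_le_iff₀ (by positivity)]
    nlinarith
  · field_simp
    norm_num
  · rw [← mul_div_assoc, div_le_iff₀ (by positivity)]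
    have h2 : 5 ≤ τ * (4 * s) := (div_le_iff₀ (by positivity)).1 hτ1
    nlinarith
  · have : ρ / (160 * s * τ) * τ = ρ / (40 * s) / 4 := by
      field_simp
      norm_num
    exact this.le
  · have e1 : ρ / (160 * s * τ) / (ρ / (40 * s)) = 1 / (4 * τ) := by
      field_simp
      norm_num
    rw [e1]
    have h3 : 40000 * t ≤ τ * s ^ 2 := by rw [hτ2]; nlinarith
    have h4 : t ^ 2 / s ^ 2 / τ ≤ s ^ 2 / 40000 := by
      rw [div_div, div_le_iff₀ (by positivity)]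
      nlinarith
    have h5 : 1 / (4 * τ) * (t ^ 2 / s ^ 2 / τ) ≤ s ^ 2 / 40000 := by
      rw [div_div, div_mul_div_comm, div_le_iff₀ (by positivity)]
      have h6 : (40000 * t) ^ 2 ≤ (τ * s ^ 2) ^ 2 := by
        apply pow_le_pow_left₀ (by positivity) h3
      nlinarith [mul_nonneg (sq_nonneg τ) (sq_nonneg (s ^ 2)), sq_nonneg t]
    have : (1 + 1 / (4 * τ)) * (t ^ 2 / s ^ 2 / τ) =
        t ^ 2 / s ^ 2 / τ + 1 / (4 * τ) * (t ^ 2 / s ^ 2 / τ) := by ring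
    rw [this]
    linarith
  · have e2 : 27 * (ρ / 41) ^ 3 / (ρ / (160 * s * τ) * (ρ / (40 * s)) ^ 2) =
        27 * 160 * 1600 / 68921 * (s * (τ * s ^ 2)) := by
      field_simp
      norm_num
    rw [e2, hτ2]
    have := mul_nonneg hs0.le ht0
    nlinarith
-- END par

-- BEGIN bs1
/-- The case `μ > 18`. `ρ = 41σ`; row par, row chd for `p i = ms (u i) (f i) x ρ`, `α i j = dl (u i) (u j)` (`0 ≤ α ≤ 1`, so `0 ≤ Θ ≤ μ²`), `w = u j0`, `Vor.rot_basis`: `b 0 = w`. `τ ∑ over transversal p i ≤ ∑ p i α i j0 ≤ Θ/μ`. Row rgr with `σ` (`3L ≤ 3ρ/200 ≤ σ`, `3δ ≤ 3ρ/160 ≤ σ`); `F` = the sum over `g ∈ G` of the functions of row ceb (`‖g - x‖ ≤ 4σ ≤ ρ/10`), `Vor.fle_union`; `‖z - x‖ ≤ σ` for `|z c - x c| ≤ σ/2`. -/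
theorem base_bad {n : ℕ} (hn : 0 < n) {l : ℝ} (hl : 0 < l) {f : Fin n → E → ℝ≥0}
    (hm : ∀ i, Measurable (f i)) (h1 : ∀ i, ∫⁻ x, (f i x : ℝ≥0∞) = 1) (hL : ∀ i, LL l (f i))
    {u : Fin n → E} (hu : ∀ i, ‖u i‖ = 1) {σ : ℝ} (hσ : 0 < σ) (hlσ : l * σ ≤ 1 / 100) (x : E)
    (hμ : 18 < ∑ i, ms (u i) (f i) x (41 * σ)) :
    ∃ F : (Fin n → E) → ℝ≥0∞, Measurable F ∧
      (∀ p, (({f | f ∈ Faces u p ∧ ∃ z ∈ f, ∀ c, |z c - x c| ≤ σ / 2}.encard : ℕ∞) : ℝ≥0∞) ≤ F p) ∧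
      ∫⁻ p, F p ∂(Measure.pi fun i => lw (f i)) ≤ ENNReal.ofReal (5000000 *
        (∑ i, ms (u i) (f i) x (41 * σ) + Real.sqrt ((∑ i, ms (u i) (f i) x (41 * σ)) *
          ∑ i, ∑ j, ms (u i) (f i) x (41 * σ) * ms (u j) (f j) x (41 * σ) * dl (u i) (u j))) *
        (5000000 * (6 * Real.exp 29))) := by
  classical
  set ρ : ℝ := 41 * σ with hρ
  set q : Fin n → ℝ := fun i => ms (u i) (f i) x ρ with hq
  set μ : ℝ := ∑ i, q i with hμd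
  set Θ : ℝ := ∑ i, ∑ j, q i * q j * dl (u i) (u j) with hΘ
  have hρ0 : 0 < ρ := by positivity
  have hq0 : ∀ i, 0 ≤ q i := fun i => (Vsn.ms_basic (h1 i) (hu i) x ρ).1
  have hμ18 : 18 < μ := hμ
  have hμ0 : 0 < μ := by linarith
  have hd0 : ∀ i j, 0 ≤ dl (u i) (u j) := fun i j => (Vor.dl_basic (hu i)).2.1 _
  have hd1 : ∀ i j, dl (u i) (u j) ≤ 1 := fun i j => (dl_sub (hu i)).2.2 _ (hu j)
  have hΘ0 : 0 ≤ Θ := Finset.sum_nonneg fun i _ => Finset.sum_nonneg fun j _ =>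
    mul_nonneg (mul_nonneg (hq0 i) (hq0 j)) (hd0 i j)
  have hΘ1 : Θ ≤ μ ^ 2 := by
    rw [sq, hμd, Finset.sum_mul_sum]
    refine Finset.sum_le_sum fun i _ => Finset.sum_le_sum fun j _ => ?_
    exact mul_le_of_le_one_right (mul_nonneg (hq0 i) (hq0 j)) (hd1 i j)
  obtain ⟨δ, τ, L, hδ0, hδρ, hmass, hτ0, hL0, hLρ, hLτ, htr, hcnt⟩ :=
    par_choice hρ0 hμ18 hΘ0 hΘ1
  obtain ⟨j0, hj0⟩ := choose_dir q hq0 hμ0 fun i j => dl (u i) (u j)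
  obtain ⟨b, hb⟩ := Vor.rot_basis (hu j0)
  have hP : τ * ∑ i, (if dl (u i) (b 0) ≤ τ then 0 else q i) ≤ Θ / μ := by
    refine le_trans ?_ hj0
    rw [Finset.mul_sum]
    refine Finset.sum_le_sum fun i _ => ?_
    rw [hb]
    split_ifs with h
    · rw [mul_zero]
      exact mul_nonneg (hq0 i) (hd0 i j0)
    · rw [mul_comm]
      exact mul_le_mul_of_nonneg_left (not_le.1 h).le (hq0 i)
  have htrans : (1 + L / δ) * ∑ i, (if dl (u i) (b 0) ≤ τ then 0 else q i) ≤ μ / 20000 := by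
    refine le_trans (mul_le_mul_of_nonneg_left ?_ (by positivity)) htr
    rw [le_div_iff₀ hτ0, mul_comm]
    exact hP
  obtain ⟨G, hG1, hG2, hG3⟩ := rgrid b x hL0 hδ0 (σ := σ) (by linarith) (by linarith)
  have hPar : ∀ g ∈ G, Par l ρ δ τ L u f (b 0) g x := fun g hg =>
    { l0 := hl
      meas := hm
      one := h1
      lip := hL
      unit := hu
      w1 := by rw [hb]; exact hu j0
      ρ0 := hρ0
      lρ := by
        have : l * ρ = 41 * (l * σ) := by rw [hρ]; ring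
        rw [this]
        linarith
      δ0 := hδ0
      δρ := hδρ
      L0 := hL0
      Lρ := hLρ
      Lτ := hLτ
      gx := (hG1 g hg).trans (by linarith)
      mass := hmass
      trans := htrans }
  have hF : ∀ g : E, ∃ F : (Fin n → E) → ℝ≥0∞, g ∈ G → Measurable F ∧
      (∀ p, (({f | f ∈ Faces u p ∧ ∃ z ∈ f, |(inner ℝ (b 0) (z - g) : ℝ)| ≤ L / 2 ∧
        |(inner ℝ (b 1) (z - g) : ℝ)| ≤ δ / 2 ∧
        |(inner ℝ (b 2) (z - g) : ℝ)| ≤ δ / 2}.encard : ℕ∞) : ℝ≥0∞) ≤ F p) ∧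
      ∫⁻ p, F p ∂(Measure.pi fun i => lw (f i)) ≤
        ENNReal.ofReal (5000000 * (6 * Real.exp 29)) := by
    intro g
    by_cases hg : g ∈ G
    · obtain ⟨F, hF⟩ := cell_bound hn (hPar g hg)
      exact ⟨F, fun _ => hF⟩
    · exact ⟨0, fun h => absurd h hg⟩
  choose F hF using hF
  refine ⟨fun p => ∑ g ∈ G, F g p, ?_, fun p => ?_, ?_⟩
  · exact Finset.measurable_fun_sum _ fun g hg => (hF g hg).1
  · set B : E → Set (Set E) := fun g => {f | f ∈ Faces u p ∧ ∃ z ∈ f,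
      |(inner ℝ (b 0) (z - g) : ℝ)| ≤ L / 2 ∧ |(inner ℝ (b 1) (z - g) : ℝ)| ≤ δ / 2 ∧
      |(inner ℝ (b 2) (z - g) : ℝ)| ≤ δ / 2} with hB
    have hsub : {f | f ∈ Faces u p ∧ ∃ z ∈ f, ∀ c, |z c - x c| ≤ σ / 2} ⊆ ⋃ g ∈ G, B g := by
      rintro f ⟨hf, z, hzf, hz⟩
      have hzx : ‖z - x‖ ≤ σ := by
        rw [EuclideanSpace.norm_eq, Fin.sum_univ_three]
        have k : ∀ c, ‖(z - x) c‖ ^ 2 ≤ (σ / 2) ^ 2 := by
          intro c
          rw [Real.norm_eq_abs, PiLp.sub_apply]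
          exact pow_le_pow_left₀ (abs_nonneg _) (hz c) 2
        have k0 := k 0
        have k1 := k 1
        have k2 := k 2
        rw [Real.sqrt_le_left hσ.le]
        nlinarith
      obtain ⟨g, hg, hgz⟩ := hG2 z hzx
      simp only [mem_iUnion]
      exact ⟨g, hg, hf, z, hzf, hgz⟩
    refine (ENat.toENNReal_mono (Set.encard_le_encard hsub)).trans ((Vor.fle_union G B).trans ?_)
    exact Finset.sum_le_sum fun g hg => (hF g hg).2.1 p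
  · rw [lintegral_finsetSum _ fun g hg => (hF g hg).1]
    calc ∑ g ∈ G, ∫⁻ p, F g p ∂(Measure.pi fun i => lw (f i))
        ≤ ∑ _g ∈ G, ENNReal.ofReal (5000000 * (6 * Real.exp 29)) :=
          Finset.sum_le_sum fun g hg => (hF g hg).2.2
      _ = (G.card : ℝ≥0∞) * ENNReal.ofReal (5000000 * (6 * Real.exp 29)) := by
          rw [Finset.sum_const, nsmul_eq_mul]
      _ = ENNReal.ofReal ((G.card : ℝ) * (5000000 * (6 * Real.exp 29))) := by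
          rw [ENNReal.ofReal_mul (Nat.cast_nonneg G.card), ENNReal.ofReal_natCast]
      _ ≤ ENNReal.ofReal (5000000 * (μ + Real.sqrt (μ * Θ)) * (5000000 * (6 * Real.exp 29))) := by
          apply ENNReal.ofReal_le_ofReal
          refine mul_le_mul_of_nonneg_right ?_ (by positivity)
          refine hG3.trans (le_trans (le_of_eq ?_) hcnt)
          rw [hρ]
          congr 2
          field_simp
-- END bs1

-- BEGIN bas
/-- `μ ≤ 18`: `Vsn.faces_cell`, `Vsn.expect_cell` with `δ = σ`. `μ > 18`: row bs1. The constant: `10^7 · 4 e^79` and `25 · 10^12 · 6 e^29` are `≤ 10^15 e^79`. -/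
theorem base_cube {n : ℕ} (hn : 0 < n) {l : ℝ} (hl : 0 < l) {f : Fin n → E → ℝ≥0}
    (hm : ∀ i, Measurable (f i)) (h1 : ∀ i, ∫⁻ x, (f i x : ℝ≥0∞) = 1) (hL : ∀ i, LL l (f i))
    {u : Fin n → E} (hu : ∀ i, ‖u i‖ = 1) {σ : ℝ} (hσ : 0 < σ) (hlσ : l * σ ≤ 1 / 100) (x : E) :
    ∃ F : (Fin n → E) → ℝ≥0∞, Measurable F ∧
      (∀ p, (({f | f ∈ Faces u p ∧ ∃ z ∈ f, ∀ c, |z c - x c| ≤ σ / 2}.encard : ℕ∞) : ℝ≥0∞) ≤ F p) ∧
      ∫⁻ p, F p ∂(Measure.pi fun i => lw (f i)) ≤ ENNReal.ofReal (10 ^ 15 * Real.exp 79 *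
        (1 + ∑ i, ms (u i) (f i) x (41 * σ) + Real.sqrt ((∑ i, ms (u i) (f i) x (41 * σ)) *
          ∑ i, ∑ j, ms (u i) (f i) x (41 * σ) * ms (u j) (f j) x (41 * σ) * dl (u i) (u j)))) := by
  have hμ0 : 0 ≤ ∑ i, ms (u i) (f i) x (41 * σ) := Finset.sum_nonneg fun i _ => measureReal_nonneg
  have hs0 := Real.sqrt_nonneg ((∑ i, ms (u i) (f i) x (41 * σ)) *
          ∑ i, ∑ j, ms (u i) (f i) x (41 * σ) * ms (u j) (f j) x (41 * σ) * dl (u i) (u j))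
  have he79 : 1 ≤ Real.exp 79 := Real.one_le_exp (by norm_num)
  have he29 : Real.exp 29 ≤ Real.exp 79 := Real.exp_le_exp.2 (by norm_num)
  rcases le_or_gt (∑ i, ms (u i) (f i) x (41 * σ)) 18 with hμ | hμ
  · obtain ⟨e1, e2⟩ := Vsn.expect_cell hl hm h1 hL hu x hσ (by linarith) hμ
    refine ⟨_, e1, fun p => Vsn.faces_cell hn hu p hσ x, e2.trans (ENNReal.ofReal_le_ofReal ?_)⟩
    nlinarith
  · obtain ⟨F, hF, hF1, hF2⟩ := base_bad hn hl hm h1 hL hu hσ hlσ x hμ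
    refine ⟨F, hF, hF1, hF2.trans (ENNReal.ofReal_le_ofReal ?_)⟩
    generalize Real.sqrt ((∑ i, ms (u i) (f i) x (41 * σ)) *
          ∑ i, ∑ j, ms (u i) (f i) x (41 * σ) * ms (u j) (f j) x (41 * σ) * dl (u i) (u j)) = T at hs0 ⊢
    generalize ∑ i, ms (u i) (f i) x (41 * σ) = μ at hμ0 ⊢
    have h2 : 0 ≤ μ + T := add_nonneg hμ0 hs0
    have h3 : (5000000 : ℝ) * (μ + T) * (5000000 * (6 * Real.exp 29)) ≤
        5000000 * (μ + T) * (5000000 * (6 * Real.exp 79)) :=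
      mul_le_mul_of_nonneg_left (by linarith) (by positivity)
    have h4 : 0 ≤ (μ + T) * Real.exp 79 := mul_nonneg h2 (by linarith)
    nlinarith
-- END bas

end Pool.Agent.Van
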