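import Pool.Agent.Van.Eng

/-!
A long thin cell: the expected number of faces which meet it is bounded
-/

set_option autoImplicit false

namespace Pool.Agent.Van

open MeasureTheory Set
open scoped ENNReal NNReal
open Pool.Agent.Vor (E dl line Near Faces)
open Pool.Agent.Vsn (LL lw ms)

/-- the upper distance of the line `x + ℝ u` from the cell with centre `g`, axis `w`, half length
`L`: aligned lines (`dl u w ≤ τ`) and transversal lines -/
noncomputable def Du (τ L : ℝ) (u w g x : E) : ℝ :=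
  if dl u w ≤ τ then dl u (g - x) else dl u (g - x) + L

/-- the lower distance -/
noncomputable def Ml (τ L : ℝ) (u w g x : E) : ℝ :=
  if dl u w ≤ τ then dl u (g - x) else Metric.infDist x (strip u w g L)

/-- the conditions on the parameters of a cell; `ρ` is the reference radius at the point `x` -/
structure Par {n : ℕ} (l ρ δ τ L : ℝ) (u : Fin n → E) (f : Fin n → E → ℝ≥0) (w g x : E) :
    Prop where
  l0 : 0 < l
  meas : ∀ i, Measurable (f i)
  one : ∀ i, ∫⁻ y, (f i y : ℝ≥0∞) = 1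
  lip : ∀ i, LL l (f i)
  unit : ∀ i, ‖u i‖ = 1
  w1 : ‖w‖ = 1
  ρ0 : 0 < ρ
  lρ : l * ρ ≤ 1 / 2
  δ0 : 0 < δ
  δρ : 160 * δ ≤ ρ
  L0 : 0 < L
  Lρ : 200 * L ≤ ρ
  Lτ : L * τ ≤ δ / 4
  gx : ‖g - x‖ ≤ ρ / 10
  mass : 1600 * (δ ^ 2 * ∑ i, ms (u i) (f i) x ρ) = ρ ^ 2
  trans : (1 + L / δ) * ∑ i, (if dl (u i) w ≤ τ then 0 else ms (u i) (f i) x ρ) ≤
    (∑ i, ms (u i) (f i) x ρ) / 20000

-- BEGIN rbx
/-- `Vor.faces_box` for `R (u i)`, `R (p i)`, `R = b.repr` (linear isometry to `E`, coordinates `⟪b c, z⟫`), `α c = ⟪b c, g⟫ - r c`, `β c = ⟪b c, g⟫ + r c`. `Near (R u) (R p) (R z) = Near u p z` (`Metric.infDist_image`, `R '' line p u = line (R p) (R u)`), `R '' connectedComponentIn F x = connectedComponentIn (R '' F) (R x)` (`Homeomorph.image_connectedComponentIn`), so `f ↦ R '' f` maps `Faces u p` injectively to `Faces (R u) (R p)`. -/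
theorem faces_rbox {n : ℕ} {u p : Fin n → E} (hu : ∀ i, ‖u i‖ = 1)
    (b : OrthonormalBasis (Fin 3) ℝ E) (g : E) (r : Fin 3 → ℝ) (S : Finset (Fin n))
    (hS : ∀ z : E, (∀ c, |(inner ℝ (b c) (z - g) : ℝ)| < r c) → Near u p z ⊆ S) :
    {f | f ∈ Faces u p ∧ ∃ z ∈ f, ∀ c, |(inner ℝ (b c) (z - g) : ℝ)| < r c}.encard ≤
      ((16 * S.card ^ 2 + 13) ^ 3 : ℕ) := by
  set R : E ≃ₗᵢ[ℝ] E := b.repr with hR
  have hRc : ∀ (z : E) (c : Fin 3), R z c = inner ℝ (b c) z := fun z c => b.repr_apply_apply z c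
  have hline : ∀ i, line (R (p i)) (R (u i)) = R '' line (p i) (u i) := by
    intro i
    ext y
    constructor
    · rintro ⟨t, rfl⟩
      exact ⟨p i + t • u i, ⟨t, rfl⟩, by rw [map_add, map_smul]⟩
    · rintro ⟨_, ⟨t, rfl⟩, rfl⟩
      exact ⟨t, by rw [map_add, map_smul]⟩
  have hNear : ∀ z, Near (fun i => R (u i)) (fun i => R (p i)) (R z) = Near u p z := by
    intro z
    ext i
    unfold Pool.Agent.Vor.Near
    simp only [Set.mem_ofPred_eq, hline, Metric.infDist_image R.isometry]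
  have hcomp : ∀ x, R '' {y | Near u p y = Near u p x} =
      {y | Near (fun i => R (u i)) (fun i => R (p i)) y =
        Near (fun i => R (u i)) (fun i => R (p i)) (R x)} := by
    intro x
    ext y
    constructor
    · rintro ⟨z, hz, rfl⟩
      simp only [Set.mem_ofPred_eq] at hz ⊢
      rw [hNear, hNear, hz]
    · intro hy
      simp only [Set.mem_ofPred_eq] at hy
      refine ⟨R.symm y, ?_, R.apply_symm_apply y⟩
      simp only [Set.mem_ofPred_eq]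
      rw [← hNear, ← hNear x, R.apply_symm_apply, hy]
  have hbox : ∀ z : E, (∀ c, inner ℝ (b c) g - r c < R z c ∧ R z c < inner ℝ (b c) g + r c) ↔
      ∀ c, |(inner ℝ (b c) (z - g) : ℝ)| < r c := by
    intro z
    refine forall_congr' fun c => ?_
    rw [hRc, inner_sub_right, abs_lt]
    constructor
    · rintro ⟨h1, h2⟩
      constructor <;> linarith
    · rintro ⟨h1, h2⟩
      constructor <;> linarith
  have h1 := Pool.Agent.Vor.faces_box (u := fun i => R (u i)) (p := fun i => R (p i))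
    (fun i => by rw [R.norm_map, hu i]) (fun c => inner ℝ (b c) g - r c)
    (fun c => inner ℝ (b c) g + r c) S (fun z hz => by
      have h2 := hS (R.symm z) ((hbox (R.symm z)).1 (by
        intro c
        rw [R.apply_symm_apply]
        exact hz c))
      rw [← hNear, R.apply_symm_apply] at h2
      exact h2)
  refine le_trans ?_ h1
  have hinj : Function.Injective (fun f : Set E => R '' f) := Set.image_injective.2 R.injective
  rw [← hinj.encard_image]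
  refine Set.encard_le_encard ?_
  rintro _ ⟨f, ⟨⟨x, rfl⟩, z, hz, hzb⟩, rfl⟩
  refine ⟨⟨R x, ?_⟩, R z, ⟨z, hz, rfl⟩, (hbox z).2 hzb⟩
  have h3 := R.toHomeomorph.image_connectedComponentIn
    (s := {y | Near u p y = Near u p x}) (x := x) rfl
  have h4 : (R.toHomeomorph : E → E) = R := rfl
  rw [h4, hcomp x] at h3
  exact h3
-- END rbx

-- BEGIN dmb
/-- `Vor.dl_basic`, `Metric.continuous_infDist_pt`; `infDist x (strip ..) ≤ dist x (g + 0 • w + t • u)` with `t = ⟪u, x - g⟫`, of norm `dl u (g - x)`; last part: every `y = g + a w + t u` of the strip has `dist x y ≥ dl u (y - x) = dl u (g + a w - x) ≥ dl u (g - x) - |a|` (`Metric.le_infDist`). -/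
theorem DM_basic {u w : E} (hu : ‖u‖ = 1) (hw : ‖w‖ = 1) (g : E) {L : ℝ} (hL : 0 < L) (τ : ℝ) :
    Measurable (Du τ L u w g) ∧ Measurable (Ml τ L u w g) ∧ (∀ x, 0 ≤ Du τ L u w g x) ∧
      (∀ x, Ml τ L u w g x ≤ Du τ L u w g x) ∧ ∀ x, dl u (g - x) - L ≤ Ml τ L u w g x := by
  obtain ⟨hc, h0, hn, _, hneg, htri⟩ := Vor.dl_basic hu
  obtain ⟨_, htr, _⟩ := dl_sub hu
  have hcont : Continuous fun x => dl u (g - x) := hc.comp (continuous_const.sub continuous_id)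
  have hinf : ∀ x, Metric.infDist x (strip u w g L) ≤ dl u (g - x) := by
    intro x
    have hmem : g + (0 : ℝ) • w + (inner ℝ u (x - g)) • u ∈ strip u w g L :=
      ⟨0, inner ℝ u (x - g), by rw [abs_zero]; exact hL.le, rfl⟩
    refine (Metric.infDist_le_dist_of_mem hmem).trans (le_of_eq ?_)
    rw [← hneg, neg_sub, dist_eq_norm]
    show _ = ‖(x - g) - (inner ℝ u (x - g)) • u‖
    congr 1
    rw [zero_smul, add_zero]
    abel
  by_cases hτ : dl u w ≤ τ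
  · have e1 : Du τ L u w g = fun x => dl u (g - x) := by
      funext x
      unfold Du
      rw [if_pos hτ]
    have e2 : Ml τ L u w g = fun x => dl u (g - x) := by
      funext x
      unfold Ml
      rw [if_pos hτ]
    rw [e1, e2]
    refine ⟨hcont.measurable, hcont.measurable, fun x => h0 _, fun x => le_rfl, fun x => ?_⟩
    show dl u (g - x) - L ≤ dl u (g - x)
    linarith
  · have e1 : Du τ L u w g = fun x => dl u (g - x) + L := by
      funext x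
      unfold Du
      rw [if_neg hτ]
    have e2 : Ml τ L u w g = fun x => Metric.infDist x (strip u w g L) := by
      funext x
      unfold Ml
      rw [if_neg hτ]
    rw [e1, e2]
    refine ⟨(hcont.add continuous_const).measurable, (Metric.continuous_infDist_pt _).measurable,
      fun x => add_nonneg (h0 _) hL.le, fun x => (hinf x).trans ?_, fun x => ?_⟩
    · show dl u (g - x) ≤ dl u (g - x) + L
      linarith
    · show dl u (g - x) - L ≤ Metric.infDist x (strip u w g L)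
      have hne : (strip u w g L).Nonempty :=
        ⟨g + (0 : ℝ) • w + (0 : ℝ) • u, 0, 0, by rw [abs_zero]; exact hL.le, rfl⟩
      refine (Metric.le_infDist hne).2 ?_
      rintro y ⟨a, t, ha, rfl⟩
      have h1 : dl u (x - (g + a • w + t • u)) = dl u (x - g - a • w) := by
        have h2 : x - (g + a • w + t • u) = (x - g - a • w) + (-t) • u := by
          rw [neg_smul]
          abel
        rw [h2, htr]
      have h3 := htri (x - g) (x - g - a • w)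
      have h4 : ‖x - g - (x - g - a • w)‖ ≤ L := by
        have h5 : x - g - (x - g - a • w) = a • w := by abel
        rw [h5, norm_smul, hw, mul_one]
        exact ha
      have h6 : dl u (g - x) = dl u (x - g) := by
        rw [← hneg, neg_sub]
      have h7 := hn (x - (g + a • w + t • u))
      rw [dist_eq_norm, h6]
      rw [h1] at h7
      linarith
-- END dmb

-- BEGIN ncl
/-- `z = g + a w + e`, `a = ⟪b 0, z - g⟫`, `‖e‖ < 3δ/4` (`‖e‖² = ⟪b 1, z-g⟫² + ⟪b 2, z-g⟫² ≤ 2 (13δ/25)²`). Upper: `dl (u j) (z - p j) ≤ dl (u j) (g - p j) + |a| dl (u j) (b 0) + ‖e‖` (row dsb), which is `< Du + δ` in both cases (`|a| dl ≤ L τ ≤ δ/4`, or `≤ L`). Lower: `Ml (u i) .. ≤ dl (u i) (z - p i) + δ`: aligned as above; transversal: `infDist (p i) (strip ..) ≤ dl (u i) (g + a w - p i) ≤ dl (u i) (z - p i) + ‖e‖`. And `dl (u i) (z - p i) ≤ dl (u j) (z - p j)` (`Vor.infDist_line`). -/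
theorem near_cell {n : ℕ} {u p : Fin n → E} (hu : ∀ i, ‖u i‖ = 1)
    (b : OrthonormalBasis (Fin 3) ℝ E) (g : E) {τ L δ : ℝ} (hδ : 0 < δ) (hL : 0 < L)
    (hτ : L * τ ≤ δ / 4) {z : E} (h0 : |(inner ℝ (b 0) (z - g) : ℝ)| < L)
    (h1 : |(inner ℝ (b 1) (z - g) : ℝ)| < 13 * δ / 25)
    (h2 : |(inner ℝ (b 2) (z - g) : ℝ)| < 13 * δ / 25) {i : Fin n} (hi : i ∈ Near u p z)
    (j : Fin n) :
    Ml τ L (u i) (b 0) g (p i) < Du τ L (u j) (b 0) g (p j) + 2 * δ := by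
  obtain ⟨a, hadef⟩ : ∃ a : ℝ, a = inner ℝ (b 0) (z - g) := ⟨_, rfl⟩
  obtain ⟨x1, hx1⟩ : ∃ x : ℝ, x = inner ℝ (b 1) (z - g) := ⟨_, rfl⟩
  obtain ⟨x2, hx2⟩ : ∃ x : ℝ, x = inner ℝ (b 2) (z - g) := ⟨_, rfl⟩
  rw [← hadef] at h0
  rw [← hx1] at h1
  rw [← hx2] at h2
  have hsum : a • b 0 + x1 • b 1 + x2 • b 2 = z - g := by
    have h := b.sum_repr' (z - g)
    rw [Fin.sum_univ_three] at h
    rw [hadef, hx1, hx2]
    exact h
  obtain ⟨e, hedef⟩ : ∃ e : E, e = x1 • b 1 + x2 • b 2 := ⟨_, rfl⟩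
  have hzg : z - g = a • b 0 + e := by
    rw [hedef, ← hsum, add_assoc]
  have hb0 : ‖b 0‖ = 1 := b.orthonormal.1 0
  have hb1 : ‖b 1‖ = 1 := b.orthonormal.1 1
  have hb2 : ‖b 2‖ = 1 := b.orthonormal.1 2
  have hb12 : (inner ℝ (b 1) (b 2) : ℝ) = 0 := b.orthonormal.2 (by decide)
  have hesq : ‖e‖ ^ 2 = x1 ^ 2 + x2 ^ 2 := by
    rw [hedef, norm_add_sq_real, norm_smul, norm_smul, hb1, hb2, inner_smul_left, inner_smul_right,
      hb12, Real.norm_eq_abs, Real.norm_eq_abs, mul_one, mul_one, sq_abs, sq_abs]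
    simp
  have he : ‖e‖ < 3 * δ / 4 := by
    have h3 : x1 ^ 2 < (13 * δ / 25) ^ 2 := by
      rw [← sq_abs x1]
      exact pow_lt_pow_left₀ h1 (abs_nonneg _) (by norm_num)
    have h4 : x2 ^ 2 < (13 * δ / 25) ^ 2 := by
      rw [← sq_abs x2]
      exact pow_lt_pow_left₀ h2 (abs_nonneg _) (by norm_num)
    have h5 : ‖e‖ ^ 2 < (3 * δ / 4) ^ 2 := by
      rw [hesq]
      nlinarith [sq_nonneg δ, mul_pos hδ hδ]
    exact lt_of_pow_lt_pow_left₀ 2 (by positivity) h5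
  have hdz : ∀ m : Fin n, dl (u m) (z - g) ≤ |a| * dl (u m) (b 0) + ‖e‖ := by
    intro m
    obtain ⟨_, _, _, hs, _, htri⟩ := Vor.dl_basic (hu m)
    have h3 := htri (z - g) (a • b 0)
    rw [hs, hzg, add_sub_cancel_left] at h3
    rw [hzg]
    exact h3
  have hal : ∀ m : Fin n, dl (u m) (b 0) ≤ τ → dl (u m) (z - g) ≤ δ / 4 + ‖e‖ := by
    intro m hm
    obtain ⟨_, hnn, _, _, _, _⟩ := Vor.dl_basic (hu m)
    have h3 : |a| * dl (u m) (b 0) ≤ L * τ := mul_le_mul h0.le hm (hnn _) hL.le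
    linarith [hdz m]
  have hup : dl (u j) (z - p j) ≤ Du τ L (u j) (b 0) g (p j) + δ / 4 + ‖e‖ := by
    obtain ⟨hs1, _, hs3⟩ := dl_sub (hu j)
    have h3 := hs1 (z - p j) (g - p j)
    have h4 : z - p j - (g - p j) = z - g := by abel
    rw [h4] at h3
    by_cases hm : dl (u j) (b 0) ≤ τ
    · have h5 := hal j hm
      unfold Du
      rw [if_pos hm]
      linarith
    · have h5 := hdz j
      have h6 : |a| * dl (u j) (b 0) ≤ L * 1 :=
        mul_le_mul h0.le (hs3 _ hb0) ((Vor.dl_basic (hu j)).2.1 _) hL.le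
      unfold Du
      rw [if_neg hm]
      linarith
  have hlo : Ml τ L (u i) (b 0) g (p i) ≤ dl (u i) (z - p i) + δ / 4 + ‖e‖ := by
    obtain ⟨_, _, _, _, hneg, htri⟩ := Vor.dl_basic (hu i)
    obtain ⟨hs1, _, _⟩ := dl_sub (hu i)
    by_cases hm : dl (u i) (b 0) ≤ τ
    · have h3 := hs1 (g - p i) (z - p i)
      have h4 : g - p i - (z - p i) = -(z - g) := by abel
      rw [h4, hneg] at h3
      have h5 := hal i hm
      unfold Ml
      rw [if_pos hm]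
      linarith
    · unfold Ml
      rw [if_neg hm]
      have hmem : g + a • b 0 + (inner ℝ (u i) (p i - g - a • b 0)) • u i ∈ strip (u i) (b 0) g L :=
        ⟨a, _, h0.le, rfl⟩
      have h3 : dist (p i) (g + a • b 0 + (inner ℝ (u i) (p i - g - a • b 0)) • u i) =
          dl (u i) (g + a • b 0 - p i) := by
        rw [← hneg, neg_sub, dist_eq_norm]
        have h4 : p i - (g + a • b 0) = p i - g - a • b 0 := by abel
        rw [h4]
        show _ = ‖(p i - g - a • b 0) - (inner ℝ (u i) (p i - g - a • b 0)) • u i‖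
        congr 1
        abel
      have h5 := Metric.infDist_le_dist_of_mem (x := p i) hmem
      rw [h3] at h5
      have h6 := htri (g + a • b 0 - p i) (z - p i)
      have h7 : ‖g + a • b 0 - p i - (z - p i)‖ = ‖e‖ := by
        have h8 : g + a • b 0 - p i - (z - p i) = -e := by
          have h9 : e = z - g - a • b 0 := by
            rw [hzg]
            abel
          rw [h9]
          abel
        rw [h8, norm_neg]
      rw [h7] at h6
      linarith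
  have hnear : dl (u i) (z - p i) ≤ dl (u j) (z - p j) := by
    have h3 := hi j
    rw [Vor.infDist_line (hu i), Vor.infDist_line (hu j)] at h3
    exact h3
  linarith
-- END ncl

-- BEGIN cct
/-- Row rbx with `r = ![L, 13δ/25, 13δ/25]` and `S = univ.filter (∀ j, Ml .. < Du .. + 2δ)` (row ncl), row cn2. -/
theorem cell_count {n : ℕ} (hn : 0 < n) {u : Fin n → E} (hu : ∀ i, ‖u i‖ = 1)
    (b : OrthonormalBasis (Fin 3) ℝ E) (g : E) {τ L δ : ℝ} (hδ : 0 < δ) (hL : 0 < L)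
    (hτ : L * τ ≤ δ / 4) (p : Fin n → E) :
    (({f | f ∈ Faces u p ∧ ∃ z ∈ f, |(inner ℝ (b 0) (z - g) : ℝ)| ≤ L / 2 ∧
      |(inner ℝ (b 1) (z - g) : ℝ)| ≤ δ / 2 ∧ |(inner ℝ (b 2) (z - g) : ℝ)| ≤ δ / 2}.encard : ℕ∞) :
        ℝ≥0∞) ≤
      5000000 * ∑' j : ℕ, ∑ i0, ∏ i, wv δ j (i = i0) (Du τ L (u i) (b 0) g (p i))
        (Ml τ L (u i) (b 0) g (p i)) := by
  classical
  have hw : ‖b 0‖ = 1 := b.orthonormal.1 0
  have hDM := fun i => DM_basic (hu i) hw g hL τ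
  obtain ⟨S, hS⟩ : ∃ S : Finset (Fin n), ∀ i, i ∈ S ↔
      ∀ j, Ml τ L (u i) (b 0) g (p i) < Du τ L (u j) (b 0) g (p j) + 2 * δ :=
    ⟨Finset.univ.filter (fun i => ∀ j, Ml τ L (u i) (b 0) g (p i) < Du τ L (u j) (b 0) g (p j) + 2 * δ),
      fun i => by rw [Finset.mem_filter, and_iff_right (Finset.mem_univ i)]⟩
  obtain ⟨r, hr⟩ : ∃ r : Fin 3 → ℝ, r = ![L, 13 * δ / 25, 13 * δ / 25] := ⟨_, rfl⟩
  have r0 : r 0 = L := by rw [hr]; rfl
  have r1 : r 1 = 13 * δ / 25 := by rw [hr]; rfl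
  have r2 : r 2 = 13 * δ / 25 := by rw [hr]; rfl
  have hsub : {f | f ∈ Faces u p ∧ ∃ z ∈ f, |(inner ℝ (b 0) (z - g) : ℝ)| ≤ L / 2 ∧
      |(inner ℝ (b 1) (z - g) : ℝ)| ≤ δ / 2 ∧ |(inner ℝ (b 2) (z - g) : ℝ)| ≤ δ / 2} ⊆
      {f | f ∈ Faces u p ∧ ∃ z ∈ f, ∀ c, |(inner ℝ (b c) (z - g) : ℝ)| < r c} := by
    rintro f ⟨hf, z, hz, h0, h1, h2⟩
    refine ⟨hf, z, hz, fun c => ?_⟩
    fin_cases c
    · show |(inner ℝ (b 0) (z - g) : ℝ)| < r 0
      rw [r0]
      linarith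
    · show |(inner ℝ (b 1) (z - g) : ℝ)| < r 1
      rw [r1]
      linarith
    · show |(inner ℝ (b 2) (z - g) : ℝ)| < r 2
      rw [r2]
      linarith
  refine (ENat.toENNReal_mono (Set.encard_le_encard hsub)).trans ?_
  have h1 := faces_rbox hu b g r S (p := p) (by
    intro z hz i hi
    rw [Finset.mem_coe, hS]
    have z0 := hz 0
    have z1 := hz 1
    have z2 := hz 2
    rw [r0] at z0
    rw [r1] at z1
    rw [r2] at z2
    exact near_cell hu b g hδ hL hτ z0 z1 z2 hi)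
  refine (ENat.toENNReal_mono h1).trans ?_
  rw [ENat.toENNReal_coe]
  exact count2 hn (fun i => Du τ L (u i) (b 0) g (p i)) (fun i => Ml τ L (u i) (b 0) g (p i))
    (fun i => (hDM i).2.2.1 (p i)) (fun i => (hDM i).2.2.2.1 (p i)) hδ S (fun i hi => (hS i).1 hi)
-- END cct

-- BEGIN fdu
/-- `ms u f g D = (lw f).real {x | dl u (g - x) < D}` by definition. -/
theorem real_Du (τ L : ℝ) (u w g : E) (f : E → ℝ≥0) (c : ℝ) :
    (lw f).real {x | Du τ L u w g x < c} = ms u f g (if dl u w ≤ τ then c else c - L) := by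
  by_cases h : dl u w ≤ τ
  · have h1 : {x | Du τ L u w g x < c} = {x | dl u (g - x) < c} := by
      ext x
      simp only [Set.mem_setOf_eq, Du, if_pos h]
    rw [if_pos h, h1]
    rfl
  · have h1 : {x | Du τ L u w g x < c} = {x | dl u (g - x) < c - L} := by
      ext x
      simp only [Set.mem_setOf_eq, Du, if_neg h, lt_sub_iff_add_lt]
    rw [if_neg h, h1]
    rfl
-- END fdu

-- BEGIN h1c
/-- Row fdu, row rg3 with `D = jδ` or `D = jδ - L`. -/
theorem cell_h1 {l : ℝ} (hl : 0 < l) {f : E → ℝ≥0} (hm : Measurable f)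
    (h1 : ∫⁻ x, (f x : ℝ≥0∞) = 1) (hL : LL l f) {u : E} (hu : ‖u‖ = 1) (w g : E) {δ : ℝ}
    (hδ : 0 < δ) (hlδ : l * δ ≤ 1 / 40) (τ L : ℝ) (j : ℕ) :
    (lw f).real {x | Du τ L u w g x < ((j + 1 : ℕ) : ℝ) * δ} -
      (lw f).real {x | Du τ L u w g x < (j : ℝ) * δ} ≤
      (lw f).real {x | Du τ L u w g x < ((j + 1 : ℕ) : ℝ) * δ} / 12 + ms u f g (43 * δ) := by
  have hj : ((j + 1 : ℕ) : ℝ) * δ = (j : ℝ) * δ + δ := by
    push_cast
    ring
  rw [real_Du, real_Du, hj]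
  by_cases h : dl u w ≤ τ
  · rw [if_pos h, if_pos h]
    exact ring3 hl hm h1 hL hu g hδ hlδ ((j : ℝ) * δ)
  · rw [if_neg h, if_neg h]
    have h2 := ring3 hl hm h1 hL hu g hδ hlδ ((j : ℝ) * δ - L)
    have h3 : (j : ℝ) * δ - L + δ = (j : ℝ) * δ + δ - L := by ring
    rwa [h3] at h2
-- END h1c

-- BEGIN gal
/-- `Du = Ml = dl u (g - x)`: `{jδ ≤ dl < (j+3)δ}` = difference of two sets (`measureReal_sdiff`), row rg4. -/
theorem G_aligned {l : ℝ} (hl : 0 < l) {f : E → ℝ≥0} (hm : Measurable f)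
    (h1 : ∫⁻ x, (f x : ℝ≥0∞) = 1) (hL : LL l f) {u : E} (hu : ‖u‖ = 1) (w g : E) {δ : ℝ}
    (hδ : 0 < δ) (hlδ : l * δ ≤ 1 / 100) (τ L : ℝ) (hw : dl u w ≤ τ) (j : ℕ) :
    (lw f).real {x | (j : ℝ) * δ ≤ Du τ L u w g x ∧ Ml τ L u w g x < ((j : ℝ) + 3) * δ} ≤
      (lw f).real {x | Du τ L u w g x < (j : ℝ) * δ} / 4 + ms u f g (43 * δ) := by
  have hp : IsProbabilityMeasure (lw f) := Pool.Agent.Vor.main_prob h1
  have hD : ∀ x, Du τ L u w g x = dl u (g - x) := fun x => by unfold Du; rw [if_pos hw]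
  have hM : ∀ x, Ml τ L u w g x = dl u (g - x) := fun x => by unfold Ml; rw [if_pos hw]
  have hc : Continuous fun x : E => dl u (g - x) := (Pool.Agent.Vor.dl_basic hu).1.comp (continuous_const.sub continuous_id)
  have hsub : {x : E | dl u (g - x) < (j : ℝ) * δ} ⊆ {x : E | dl u (g - x) < ((j : ℝ) + 3) * δ} := by
    intro x hx
    have : (j : ℝ) * δ ≤ ((j : ℝ) + 3) * δ := by nlinarith
    exact lt_of_lt_of_le hx this
  have hset : {x | (j : ℝ) * δ ≤ Du τ L u w g x ∧ Ml τ L u w g x < ((j : ℝ) + 3) * δ} =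
      {x : E | dl u (g - x) < ((j : ℝ) + 3) * δ} \ {x : E | dl u (g - x) < (j : ℝ) * δ} := by
    ext x
    rw [Set.mem_ofPred_eq, Set.mem_sdiff, Set.mem_ofPred_eq, Set.mem_ofPred_eq, hD, hM, not_lt]
    exact and_comm
  have hset2 : {x | Du τ L u w g x < (j : ℝ) * δ} = {x : E | dl u (g - x) < (j : ℝ) * δ} := by
    ext x
    rw [Set.mem_ofPred_eq, Set.mem_ofPred_eq, hD]
  have hmeas : MeasurableSet {x : E | dl u (g - x) < (j : ℝ) * δ} :=
    measurableSet_lt hc.measurable measurable_const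
  rw [hset, hset2, measureReal_sdiff hsub hmeas]
  exact ring4 hl hm h1 hL hu g hδ hlδ j
-- END gal

-- BEGIN gfr
/-- The set is contained in `{jδ - L ≤ dl u (g - x) < (j+3)δ + L}` (row dmb), row rg5 with `D₁ = jδ - L ≥ 39ρ/200`, `D₂ = (j+3)δ + L`, `D₂ - D₁ = 3δ + 2L ≤ 23ρ/800`; `(lw f).real {Du < jδ} = ms u f g (jδ - L)` (row fdu). -/
theorem G_far {l : ℝ} (hl : 0 < l) {f : E → ℝ≥0} (hm : Measurable f)
    (h1 : ∫⁻ x, (f x : ℝ≥0∞) = 1) (hL : LL l f) {u : E} (hu : ‖u‖ = 1) {w : E} (hw1 : ‖w‖ = 1)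
    (g : E) {δ ρ τ L : ℝ} (hδ : 0 < δ) (hρ : 0 < ρ) (hlρ : l * ρ ≤ 1 / 2) (hδρ : 160 * δ ≤ ρ) (hL0 : 0 < L)
    (hLρ : 200 * L ≤ ρ) (hw : τ < dl u w) {j : ℕ} (hj : ρ / 5 < (j : ℝ) * δ) :
    (lw f).real {x | (j : ℝ) * δ ≤ Du τ L u w g x ∧ Ml τ L u w g x < ((j : ℝ) + 3) * δ} ≤
      (lw f).real {x | Du τ L u w g x < (j : ℝ) * δ} / 2 := by
  have hp : IsProbabilityMeasure (lw f) := Pool.Agent.Vor.main_prob h1
  have hnw : ¬ dl u w ≤ τ := not_le.2 hw
  rw [real_Du, if_neg hnw]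
  obtain ⟨D₁, hD₁⟩ : ∃ D₁ : ℝ, D₁ = (j : ℝ) * δ - L := ⟨_, rfl⟩
  obtain ⟨D₂, hD₂⟩ : ∃ D₂ : ℝ, D₂ = ((j : ℝ) + 3) * δ + L := ⟨_, rfl⟩
  have h12 : D₂ - D₁ = 3 * δ + 2 * L := by
    rw [hD₁, hD₂]
    ring
  have hD1 : 39 * ρ / 200 ≤ D₁ := by
    rw [hD₁]
    linarith
  have h5 := ring5 hl hm h1 hL hu g (D₁ := D₁) (D₂ := D₂) (by linarith) (by linarith) (by linarith)
    (by
      rw [h12]
      nlinarith [mul_le_mul_of_nonneg_left hδρ hl.le, mul_le_mul_of_nonneg_left hLρ hl.le])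
  rw [← hD₁]
  refine le_trans ?_ h5
  have hmeas : MeasurableSet {x : E | dl u (g - x) < D₁} := by
    have hc : Continuous fun x : E => dl u (g - x) :=
      (Pool.Agent.Vor.dl_basic hu).1.comp (continuous_const.sub continuous_id)
    exact measurableSet_lt hc.measurable measurable_const
  have hsub : {x : E | dl u (g - x) < D₁} ⊆ {x : E | dl u (g - x) < D₂} := by
    intro x hx
    have hx' : dl u (g - x) < D₁ := hx
    show dl u (g - x) < D₂
    linarith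
  have hdiff : ms u f g D₂ - ms u f g D₁ =
      (lw f).real ({x : E | dl u (g - x) < D₂} \ {x : E | dl u (g - x) < D₁}) :=
    (measureReal_sdiff hsub hmeas).symm
  rw [hdiff]
  refine measureReal_mono ?_
  rintro x ⟨hx1, hx2⟩
  have hdb := (DM_basic hu hw1 g hL0 τ).2.2.2.2 x
  rw [Du, if_neg hnw] at hx1
  refine ⟨?_, ?_⟩
  · show dl u (g - x) < D₂
    linarith
  · intro hx3
    have hx3' : dl u (g - x) < D₁ := hx3
    linarith
-- END gfr

-- BEGIN gnr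
/-- `D = (j+3)δ`, `2D ≤ ρ/2`. Row hit with `B = 48 D²/ρ² ms u f x ρ`: for `|a| ≤ L`, `y = g + a w`: row mth with `D' = ρ/2`: `ms u f y (2D) ≤ 3 (4D/ρ)² ms u f y (ρ/2)`, and `ms u f y (ρ/2) ≤ ms u f x ρ` (`Vsn.ms_basic`, `‖y - x‖ ≤ ρ/10 + ρ/200`). -/
theorem G_near {l : ℝ} (hl : 0 < l) {f : E → ℝ≥0} (hm : Measurable f)
    (h1 : ∫⁻ x, (f x : ℝ≥0∞) = 1) (hL : LL l f) {u : E} (hu : ‖u‖ = 1) {w g x : E} (hw1 : ‖w‖ = 1)
    {δ ρ τ L : ℝ} (hδ : 0 < δ) (hρ : 0 < ρ) (hlρ : l * ρ ≤ 1 / 2) (hδρ : 160 * δ ≤ ρ) (hL0 : 0 < L)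
    (hLρ : 200 * L ≤ ρ) (hgx : ‖g - x‖ ≤ ρ / 10) (hw : τ < dl u w) {j : ℕ}
    (hj : (j : ℝ) * δ ≤ ρ / 5) :
    (lw f).real {y | (j : ℝ) * δ ≤ Du τ L u w g y ∧ Ml τ L u w g y < ((j : ℝ) + 3) * δ} ≤
      48 * ((((j : ℝ) + 3) * δ) ^ 2 + 2 * L * (((j : ℝ) + 3) * δ)) / ρ ^ 2 * ms u f x ρ := by
  have hp : IsProbabilityMeasure (lw f) := Pool.Agent.Vor.main_prob h1
  obtain ⟨D, hDdef⟩ : ∃ D : ℝ, D = ((j : ℝ) + 3) * δ := ⟨_, rfl⟩
  rw [← hDdef]
  have hj0 : (0 : ℝ) ≤ j := Nat.cast_nonneg j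
  have hD : 0 < D := by rw [hDdef]; positivity
  have hDρ : 2 * D ≤ ρ / 2 := by
    rw [hDdef]
    nlinarith
  have hsub : {y | (j : ℝ) * δ ≤ Du τ L u w g y ∧ Ml τ L u w g y < D} ⊆
      {y | Metric.infDist y (strip u w g L) < D} := by
    rintro y ⟨-, hy⟩
    have hy' : Ml τ L u w g y < D := hy
    unfold Ml at hy'
    rw [if_neg (not_le.2 hw)] at hy'
    exact hy'
  refine (measureReal_mono hsub).trans ?_
  have hB : ∀ a : ℝ, |a| ≤ L → ms u f (g + a • w) (2 * D) ≤ 48 * D ^ 2 / ρ ^ 2 * ms u f x ρ := by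
    intro a ha
    have h2 := ms_thin hl.le hm h1 hL hu (g + a • w) (D := 2 * D) (D' := ρ / 2) (by positivity) hDρ
      (by nlinarith)
    refine h2.trans ?_
    have h3 : ms u f (g + a • w) (ρ / 2) ≤ ms u f x ρ := by
      refine (Pool.Agent.Vsn.ms_basic h1 hu (g + a • w) (ρ / 2)).2.2 x ρ ?_
      have h4 : ‖g + a • w - x‖ ≤ ‖g - x‖ + ‖a • w‖ := by
        have : g + a • w - x = (g - x) + a • w := by abel
        rw [this]
        exact norm_add_le _ _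
      rw [norm_smul, hw1, mul_one, Real.norm_eq_abs] at h4
      linarith
    have h5 : 3 * (2 * D / (ρ / 2)) ^ 2 = 48 * D ^ 2 / ρ ^ 2 := by
      field_simp
      ring
    rw [h5]
    exact mul_le_mul_of_nonneg_left h3 (by positivity)
  refine (ms_hit h1 hu hw1 g hL0 hD hB).trans (le_of_eq ?_)
  field_simp
-- END gnr

-- BEGIN glw
/-- `j = 0`: trivial. Row mtk with `D = jδ`, `D' = 2ρ` and `ms u f x ρ ≤ ms u f g (2ρ)`. -/
theorem F_lower {l : ℝ} (hl : 0 < l) {f : E → ℝ≥0} (hm : Measurable f)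
    (h1 : ∫⁻ x, (f x : ℝ≥0∞) = 1) (hL : LL l f) {u : E} (hu : ‖u‖ = 1) {w g x : E}
    {δ ρ τ L : ℝ} (hδ : 0 < δ) (hρ : 0 < ρ) (hlρ : l * ρ ≤ 1 / 2) (hgx : ‖g - x‖ ≤ ρ / 10)
    (hw : dl u w ≤ τ) {j : ℕ} (hj : (j : ℝ) * δ ≤ ρ / 5) :
    ((j : ℝ) * δ) ^ 2 / (12 * ρ ^ 2) * ms u f x ρ ≤
      (lw f).real {y | Du τ L u w g y < (j : ℝ) * δ} := by
  have hb := real_Du τ L u w g f ((j : ℝ) * δ)
  rw [if_pos hw] at hb
  rw [hb]
  rcases Nat.eq_zero_or_pos j with h0 | h0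
  · have h2 : ((j : ℝ) * δ) ^ 2 / (12 * ρ ^ 2) = 0 := by
      rw [h0, Nat.cast_zero, zero_mul, zero_pow two_ne_zero, zero_div]
    rw [h2, zero_mul]
    exact (Pool.Agent.Vsn.ms_basic h1 hu g _).1
  · have hj0 : (0 : ℝ) < (j : ℝ) := Nat.cast_pos.2 h0
    have hD : 0 < (j : ℝ) * δ := mul_pos hj0 hδ
    have h2 : (j : ℝ) * δ ≤ 2 * ρ := by linarith
    have h3 : l * (2 * ρ) ≤ 1 := by linarith
    have h4 := ms_thick hl.le hm h1 hL hu g hD h2 h3
    have h5 : ms u f x ρ ≤ ms u f g (2 * ρ) := by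
      refine (Pool.Agent.Vsn.ms_basic h1 hu x ρ).2.2 g (2 * ρ) ?_
      have h6 : ‖x - g‖ = ‖g - x‖ := norm_sub_rev x g
      rw [h6]
      linarith
    have h7 : ((j : ℝ) * δ) ^ 2 / (12 * ρ ^ 2) = ((j : ℝ) * δ / (2 * ρ)) ^ 2 / 3 := by
      rw [div_pow, div_div]
      congr 1
      ring
    have h8 : 0 ≤ ((j : ℝ) * δ / (2 * ρ)) ^ 2 := sq_nonneg _
    have h9 := mul_le_mul_of_nonneg_left h5 h8
    rw [h7]
    linarith
-- END glw

-- BEGIN m18
/-- Row mth with `D = 43 δ ≤ D' = ρ/2`: `ms g (43δ) ≤ 3 (86 δ/ρ)² ms g (ρ/2) ≤ 22188 (δ/ρ)² ms x ρ`, sum `≤ 22188/1600 ≤ 18`. -/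
theorem mass18 {n : ℕ} {l ρ δ τ L : ℝ} {u : Fin n → E} {f : Fin n → E → ℝ≥0} {w g x : E}
    (h : Par l ρ δ τ L u f w g x) : ∑ i, ms (u i) (f i) g (43 * δ) ≤ 18 := by
  have hρ := h.ρ0
  have hδ := h.δ0
  have hδρ := h.δρ
  have hlρ := h.lρ
  have hgx := h.gx
  have hterm : ∀ i, ms (u i) (f i) g (43 * δ) ≤ 22188 * (δ / ρ) ^ 2 * ms (u i) (f i) x ρ := by
    intro i
    have h1 := ms_thin h.l0.le (h.meas i) (h.one i) (h.lip i) (h.unit i) g (D := 43 * δ)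
      (D' := ρ / 2) (by linarith) (by linarith) (by linarith)
    have h2 : ms (u i) (f i) g (ρ / 2) ≤ ms (u i) (f i) x ρ :=
      (Pool.Agent.Vsn.ms_basic (h.one i) (h.unit i) g (ρ / 2)).2.2 x ρ (by linarith)
    have h3 : 3 * (43 * δ / (ρ / 2)) ^ 2 = 22188 * (δ / ρ) ^ 2 := by
      field_simp
      ring
    rw [h3] at h1
    exact h1.trans (mul_le_mul_of_nonneg_left h2 (by positivity))
  have hsum : ∑ i, ms (u i) (f i) g (43 * δ) ≤
      22188 * (δ / ρ) ^ 2 * ∑ i, ms (u i) (f i) x ρ := by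
    rw [Finset.mul_sum]
    exact Finset.sum_le_sum fun i _ => hterm i
  have hmass := h.mass
  have e : 22188 * (δ / ρ) ^ 2 * ∑ i, ms (u i) (f i) x ρ = 22188 / 1600 := by
    have h4 : (δ / ρ) ^ 2 * ∑ i, ms (u i) (f i) x ρ = 1 / 1600 := by
      rw [div_pow, div_mul_eq_mul_div, div_eq_iff (by positivity)]
      linarith
    rw [mul_assoc, h4]
    norm_num
  rw [e] at hsum
  linarith
-- END m18

-- BEGIN gsm
/-- `ρ/5 < jδ`: rows gal, gfr, m18: `≤ A/2 + 18`. `jδ ≤ ρ/5`: rows gal, gnr: `≤ (∑ over aligned F)/4 + 18 + 48 (j+3)² δ² (1 + L/δ)/ρ² P`, `P` = the sum in `trans` (`2L ≤ 3L ≤ (j+3) L`), so the last term is `≤ 48 (j+3)² δ² μ/(20000 ρ²) = 48 (j+3)²/(20000 · 1600)`; row glw: `∑ over aligned F ≥ (jδ)²/(12ρ²) (μ - P) ≥ j²/(13 · 1600)`; `(j+3)² ≤ 2j² + 18`. -/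
theorem G_sum {n : ℕ} {l ρ δ τ L : ℝ} {u : Fin n → E} {f : Fin n → E → ℝ≥0} {w g x : E}
    (h : Par l ρ δ τ L u f w g x) (j : ℕ) :
    ∑ i, (lw (f i)).real {y | (j : ℝ) * δ ≤ Du τ L (u i) w g y ∧
      Ml τ L (u i) w g y < ((j : ℝ) + 3) * δ} ≤
      (∑ i, (lw (f i)).real {y | Du τ L (u i) w g y < (j : ℝ) * δ}) / 2 + 19 := by
  have hδ := h.δ0
  have hρ := h.ρ0
  have hL := h.L0
  have hlδ : l * δ ≤ 1 / 100 := by
    have h1 : 160 * (l * δ) ≤ l * ρ := by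
      have h2 := mul_le_mul_of_nonneg_left h.δρ h.l0.le
      linarith
    have h2 := h.lρ
    linarith
  have h18 := mass18 h
  have hN0 : ∀ i, 0 ≤ ms (u i) (f i) g (43 * δ) := fun i => measureReal_nonneg
  have hF0 : ∀ i, 0 ≤ (lw (f i)).real {y | Du τ L (u i) w g y < (j : ℝ) * δ} := fun i => measureReal_nonneg
  have hp0 : ∀ i, 0 ≤ ms (u i) (f i) x ρ := fun i => measureReal_nonneg
  rcases lt_or_ge (ρ / 5) ((j : ℝ) * δ) with hj | hj
  · have key : ∀ i, (lw (f i)).real {y | (j : ℝ) * δ ≤ Du τ L (u i) w g y ∧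
        Ml τ L (u i) w g y < ((j : ℝ) + 3) * δ} ≤
        (lw (f i)).real {y | Du τ L (u i) w g y < (j : ℝ) * δ} / 2 + ms (u i) (f i) g (43 * δ) := by
      intro i
      rcases le_or_gt (dl (u i) w) τ with hw | hw
      · have h1 := G_aligned h.l0 (h.meas i) (h.one i) (h.lip i) (h.unit i) w g hδ hlδ τ L hw j
        have h2 := hF0 i
        linarith
      · have h1 := G_far h.l0 (h.meas i) (h.one i) (h.lip i) (h.unit i) h.w1 g hδ hρ h.lρ h.δρ hL h.Lρ hw hj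
        have h2 := hN0 i
        linarith
    have h1 := Finset.sum_le_sum fun i (_ : i ∈ Finset.univ) => key i
    rw [Finset.sum_add_distrib, ← Finset.sum_div] at h1
    linarith
  · have key : ∀ i, (lw (f i)).real {y | (j : ℝ) * δ ≤ Du τ L (u i) w g y ∧
        Ml τ L (u i) w g y < ((j : ℝ) + 3) * δ} ≤
        (lw (f i)).real {y | Du τ L (u i) w g y < (j : ℝ) * δ} / 4 + ms (u i) (f i) g (43 * δ) +
          48 * ((((j : ℝ) + 3) * δ) ^ 2 + 2 * L * (((j : ℝ) + 3) * δ)) / ρ ^ 2 *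
            (if dl (u i) w ≤ τ then 0 else ms (u i) (f i) x ρ) := by
      intro i
      by_cases hw : dl (u i) w ≤ τ
      · have h1 := G_aligned h.l0 (h.meas i) (h.one i) (h.lip i) (h.unit i) w g hδ hlδ τ L hw j
        rw [if_pos hw]
        linarith
      · have h1 := G_near h.l0 (h.meas i) (h.one i) (h.lip i) (h.unit i) h.w1 hδ hρ h.lρ h.δρ hL h.Lρ h.gx
          (not_le.1 hw) hj
        have h2 := hN0 i
        have h3 := hF0 i
        rw [if_neg hw]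
        linarith
    have key2 : ∀ i, ((j : ℝ) * δ) ^ 2 / (12 * ρ ^ 2) *
        (ms (u i) (f i) x ρ - (if dl (u i) w ≤ τ then 0 else ms (u i) (f i) x ρ)) ≤
        (lw (f i)).real {y | Du τ L (u i) w g y < (j : ℝ) * δ} := by
      intro i
      by_cases hw : dl (u i) w ≤ τ
      · rw [if_pos hw, sub_zero]
        exact F_lower h.l0 (h.meas i) (h.one i) (h.lip i) (h.unit i) hδ hρ h.lρ h.gx hw hj
      · rw [if_neg hw, sub_self, mul_zero]
        exact hF0 i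
    have h1 := Finset.sum_le_sum fun i (_ : i ∈ Finset.univ) => key i
    have h2 := Finset.sum_le_sum fun i (_ : i ∈ Finset.univ) => key2 i
    rw [Finset.sum_add_distrib, Finset.sum_add_distrib, ← Finset.sum_div, ← Finset.mul_sum] at h1
    rw [← Finset.mul_sum, Finset.sum_sub_distrib] at h2
    have hmass := h.mass
    have htr := h.trans
    have hP0 : 0 ≤ ∑ i, (if dl (u i) w ≤ τ then 0 else ms (u i) (f i) x ρ) :=
      Finset.sum_nonneg fun i _ => by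
        split_ifs
        · exact le_rfl
        · exact hp0 i
    set μ : ℝ := ∑ i, ms (u i) (f i) x ρ with hμdef
    set P : ℝ := ∑ i, (if dl (u i) w ≤ τ then 0 else ms (u i) (f i) x ρ) with hPdef
    set A : ℝ := ∑ i, (lw (f i)).real {y | Du τ L (u i) w g y < (j : ℝ) * δ} with hAdef
    have hρ2 : 0 < ρ ^ 2 := by positivity
    have hδ2 : 0 < δ ^ 2 := by positivity
    have hμ : 0 < μ := by
      by_contra hcon
      have h3 : δ ^ 2 * μ ≤ 0 := mul_nonpos_of_nonneg_of_nonpos hδ2.le (not_lt.1 hcon)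
      linarith
    have hPμ : P ≤ μ / 20000 := by
      refine le_trans ?_ htr
      have h3 : 0 ≤ L / δ * P := mul_nonneg (div_nonneg hL.le hδ.le) hP0
      linarith
    have hj0 : (0 : ℝ) ≤ j := Nat.cast_nonneg j
    have e1 : 48 * ((((j : ℝ) + 3) * δ) ^ 2 + 2 * L * (((j : ℝ) + 3) * δ)) / ρ ^ 2 * P ≤
        48 * ((j : ℝ) + 3) ^ 2 / (1600 * 20000) := by
      have e2 : (((j : ℝ) + 3) * δ) ^ 2 + 2 * L * (((j : ℝ) + 3) * δ) ≤ ((j : ℝ) + 3) ^ 2 * δ ^ 2 * (1 + L / δ) := by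
        have e3 : ((j : ℝ) + 3) ^ 2 * δ ^ 2 * (1 + L / δ) =
            (((j : ℝ) + 3) * δ) ^ 2 + ((j : ℝ) + 3) * (L * (((j : ℝ) + 3) * δ)) := by
          field_simp
        rw [e3]
        have e4 : 0 ≤ L * (((j : ℝ) + 3) * δ) := by positivity
        nlinarith
      have e5 : 48 * ((((j : ℝ) + 3) * δ) ^ 2 + 2 * L * (((j : ℝ) + 3) * δ)) * P ≤
          48 * (((j : ℝ) + 3) ^ 2 * δ ^ 2) * (μ / 20000) := by
        calc 48 * ((((j : ℝ) + 3) * δ) ^ 2 + 2 * L * (((j : ℝ) + 3) * δ)) * P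
            ≤ 48 * (((j : ℝ) + 3) ^ 2 * δ ^ 2 * (1 + L / δ)) * P :=
              mul_le_mul_of_nonneg_right (mul_le_mul_of_nonneg_left e2 (by norm_num)) hP0
          _ = 48 * (((j : ℝ) + 3) ^ 2 * δ ^ 2) * ((1 + L / δ) * P) := by ring
          _ ≤ 48 * (((j : ℝ) + 3) ^ 2 * δ ^ 2) * (μ / 20000) :=
              mul_le_mul_of_nonneg_left htr (by positivity)
      rw [div_mul_eq_mul_div, div_le_iff₀ hρ2, ← hmass]
      refine e5.trans (le_of_eq ?_)
      ring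
    have e2 : (j : ℝ) ^ 2 * (19999 / 20000) / 19200 ≤ A := by
      refine le_trans ?_ h2
      have e3 : (j : ℝ) ^ 2 * (19999 / 20000) / 19200 = ((j : ℝ) * δ) ^ 2 / (12 * ρ ^ 2) * (μ - μ / 20000) := by
        rw [← hmass]
        field_simp
        ring
      rw [e3]
      exact mul_le_mul_of_nonneg_left (by linarith) (by positivity)
    have e3 : ((j : ℝ) + 3) ^ 2 ≤ 2 * (j : ℝ) ^ 2 + 18 := by nlinarith [sq_nonneg ((j : ℝ) - 3)]
    nlinarith
-- END gsm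

-- BEGIN ceb
/-- `F p` = the right side of row cct (`Par.Lτ`); rows ex2, eng (`B = 19`; the first hypothesis from rows h1c, m18, the second from row gsm; `l δ ≤ 1/320`), rows dmb. -/
theorem cell_bound {n : ℕ} (hn : 0 < n) {l ρ δ τ L : ℝ} {u : Fin n → E} {f : Fin n → E → ℝ≥0}
    {b : OrthonormalBasis (Fin 3) ℝ E} {g x : E} (h : Par l ρ δ τ L u f (b 0) g x) :
    ∃ F : (Fin n → E) → ℝ≥0∞, Measurable F ∧
      (∀ p, (({f | f ∈ Faces u p ∧ ∃ z ∈ f, |(inner ℝ (b 0) (z - g) : ℝ)| ≤ L / 2 ∧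
        |(inner ℝ (b 1) (z - g) : ℝ)| ≤ δ / 2 ∧
        |(inner ℝ (b 2) (z - g) : ℝ)| ≤ δ / 2}.encard : ℕ∞) : ℝ≥0∞) ≤ F p) ∧
      ∫⁻ p, F p ∂(Measure.pi fun i => lw (f i)) ≤ ENNReal.ofReal (5000000 * (6 * Real.exp 29)) := by
  have hp : ∀ i, IsProbabilityMeasure (lw (f i)) := fun i => Vor.main_prob (h.one i)
  have hDM := fun i => DM_basic (h.unit i) h.w1 g h.L0 τ
  obtain ⟨e1, e2⟩ := expect2 (fun i => lw (f i)) (fun i => Du τ L (u i) (b 0) g) (fun i => Ml τ L (u i) (b 0) g)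
    (fun i => (hDM i).1) (fun i => (hDM i).2.1) δ
  refine ⟨fun p => 5000000 * ∑' j : ℕ, ∑ i0, ∏ i, wv δ j (i = i0) (Du τ L (u i) (b 0) g (p i))
        (Ml τ L (u i) (b 0) g (p i)), e1.const_mul _,
    fun p => cell_count hn h.unit b g h.δ0 h.L0 h.Lτ p, ?_⟩
  rw [lintegral_const_mul _ e1, ENNReal.ofReal_mul (by norm_num),
    show ENNReal.ofReal (5000000 : ℝ) = 5000000 by norm_num]
  refine mul_le_mul_right ?_ _
  rw [e2, show (29 : ℝ) = 19 + 10 by norm_num]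
  have hlδ : l * δ ≤ 1 / 40 := by
    have h1 := mul_le_mul_of_nonneg_left h.δρ h.l0.le
    have h2 := h.lρ
    nlinarith [mul_pos h.l0 h.δ0]
  refine engine (fun i => lw (f i)) (fun i => Du τ L (u i) (b 0) g) (fun i => Ml τ L (u i) (b 0) g)
    (fun i => (hDM i).1) (fun i => (hDM i).2.1) (fun i y => (hDM i).2.2.1 y) h.δ0 (fun j => ?_)
    (fun j => G_sum h j)
  have h1 : ∀ i, (lw (f i)).real {y | Du τ L (u i) (b 0) g y < ((j + 1 : ℕ) : ℝ) * δ} -
      (lw (f i)).real {y | Du τ L (u i) (b 0) g y < (j : ℝ) * δ} ≤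
      (lw (f i)).real {y | Du τ L (u i) (b 0) g y < ((j + 1 : ℕ) : ℝ) * δ} / 12 + ms (u i) (f i) g (43 * δ) :=
    fun i => cell_h1 h.l0 (h.meas i) (h.one i) (h.lip i) (h.unit i) (b 0) g h.δ0 hlδ τ L j
  have h2 := Finset.sum_le_sum fun i (_ : i ∈ Finset.univ) => h1 i
  rw [Finset.sum_sub_distrib, Finset.sum_add_distrib, ← Finset.sum_div] at h2
  have h3 := mass18 h
  linarith
-- END ceb

end Pool.Agent.Van
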