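import Pool.Agent.Van.Mass

/-!
The counting engine with an upper and a lower distance
-/

set_option autoImplicit false

namespace Pool.Agent.Van

open MeasureTheory Set
open scoped ENNReal NNReal
open Pool.Agent.Vor (E dl line Near Faces)

/-- the weight of the index `i` in the term number `(j, i0)`; `star` is `i = i0`, `D` the upper
and `M` the lower distance -/
noncomputable def wv (δ : ℝ) (j : ℕ) (star : Prop) [Decidable star] (D M : ℝ) : ℝ≥0∞ :=
  if star then (if j * δ ≤ D ∧ D < (j + 1) * δ then 2 else 0)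
  else (if j * δ ≤ D then (if M < (j + 3) * δ then 2 else 1) else 0)

-- BEGIN tl3
/-- As `Vws.tele2` / `Vor.tele`: the exponent is `≤ -A j / 2 + B ≤ -(11/24) A (j+1) + B + 9`; with `c = 11/24`: `(A (j+1) - A j) exp (-c A (j+1)) ≤ (1/c) (exp (-c A j) - exp (-c A (j+1)))` (`Real.add_one_le_exp`), the sum telescopes, `24/11 ≤ 3`. -/
theorem tele3 {A G : ℕ → ℝ} {B : ℝ} (h0 : A 0 = 0) (hA : Monotone A)
    (h : ∀ j, A (j + 1) - A j ≤ A (j + 1) / 12 + 18) (hG : ∀ j, G j ≤ A j / 2 + B) (J : ℕ) :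
    ∑ j ∈ Finset.range J, (A (j + 1) - A j) * Real.exp (-A j + G j) ≤ 3 * Real.exp (B + 9) := by
  have hterm : ∀ j, (A (j + 1) - A j) * Real.exp (-A j + G j) ≤
      3 * Real.exp (B + 9) *
        (Real.exp (-(11 / 24 * A j)) - Real.exp (-(11 / 24 * A (j + 1)))) := by
    intro j
    have hd : 0 ≤ A (j + 1) - A j := sub_nonneg.2 (hA (Nat.le_succ j))
    have hexp : -A j + G j ≤ -(11 / 24 * A (j + 1)) + (B + 9) := by
      have e1 := h j
      have e2 := hG j
      linarith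
    have h1 : (A (j + 1) - A j) * Real.exp (-A j + G j) ≤
        (A (j + 1) - A j) * (Real.exp (-(11 / 24 * A (j + 1))) * Real.exp (B + 9)) := by
      rw [← Real.exp_add]
      exact mul_le_mul_of_nonneg_left (Real.exp_le_exp.2 hexp) hd
    have h2 : 11 / 24 * (A (j + 1) - A j) + 1 ≤ Real.exp (11 / 24 * (A (j + 1) - A j)) :=
      Real.add_one_le_exp _
    have h3 : Real.exp (-(11 / 24 * A j)) =
        Real.exp (11 / 24 * (A (j + 1) - A j)) * Real.exp (-(11 / 24 * A (j + 1))) := by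
      rw [← Real.exp_add]
      congr 1
      ring
    have hp := Real.exp_pos (-(11 / 24 * A (j + 1)))
    have h5 : 11 / 24 * (A (j + 1) - A j) * Real.exp (-(11 / 24 * A (j + 1))) ≤
        Real.exp (-(11 / 24 * A j)) - Real.exp (-(11 / 24 * A (j + 1))) := by
      rw [h3]
      have := mul_le_mul_of_nonneg_right h2 hp.le
      linarith
    have hm : 0 ≤ (A (j + 1) - A j) * Real.exp (-(11 / 24 * A (j + 1))) :=
      mul_nonneg hd hp.le
    have h4 : (A (j + 1) - A j) * Real.exp (-(11 / 24 * A (j + 1))) ≤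
        3 * (Real.exp (-(11 / 24 * A j)) - Real.exp (-(11 / 24 * A (j + 1)))) := by
      linarith
    calc (A (j + 1) - A j) * Real.exp (-A j + G j)
        ≤ (A (j + 1) - A j) * (Real.exp (-(11 / 24 * A (j + 1))) * Real.exp (B + 9)) := h1
      _ = ((A (j + 1) - A j) * Real.exp (-(11 / 24 * A (j + 1)))) * Real.exp (B + 9) := by ring
      _ ≤ (3 * (Real.exp (-(11 / 24 * A j)) - Real.exp (-(11 / 24 * A (j + 1))))) *
          Real.exp (B + 9) := mul_le_mul_of_nonneg_right h4 (Real.exp_pos _).le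
      _ = _ := by ring
  have htel : ∑ j ∈ Finset.range J, (Real.exp (-(11 / 24 * A j)) -
      Real.exp (-(11 / 24 * A (j + 1)))) =
      Real.exp (-(11 / 24 * A 0)) - Real.exp (-(11 / 24 * A J)) :=
    Finset.sum_range_sub' (fun j => Real.exp (-(11 / 24 * A j))) J
  calc ∑ j ∈ Finset.range J, (A (j + 1) - A j) * Real.exp (-A j + G j)
      ≤ ∑ j ∈ Finset.range J, 3 * Real.exp (B + 9) *
        (Real.exp (-(11 / 24 * A j)) - Real.exp (-(11 / 24 * A (j + 1)))) :=
        Finset.sum_le_sum fun j _ => hterm j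
    _ = 3 * Real.exp (B + 9) *
        (Real.exp (-(11 / 24 * A 0)) - Real.exp (-(11 / 24 * A J))) := by
        rw [← Finset.mul_sum, htel]
    _ ≤ 3 * Real.exp (B + 9) * 1 := by
        refine mul_le_mul_of_nonneg_left ?_ (by positivity)
        rw [h0]
        have := Real.exp_pos (-(11 / 24 * A J))
        simp only [mul_zero, neg_zero, Real.exp_zero]
        linarith
    _ = 3 * Real.exp (B + 9) := mul_one _
-- END tl3

-- BEGIN wvs
/-- As `Vws.wt_star_gen` (Vws/Gen): the integrand is `2` times an indicator. -/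
theorem wv_star {μ : Measure E} {D : E → ℝ} (hD : Measurable D) (M : E → ℝ) (δ : ℝ) (j : ℕ)
    (star : Prop) [Decidable star] (hs : star) :
    ∫⁻ x, wv δ j star (D x) (M x) ∂μ =
      2 * μ {x | (j : ℝ) * δ ≤ D x ∧ D x < ((j : ℝ) + 1) * δ} := by
  have hS : MeasurableSet {x | (j : ℝ) * δ ≤ D x ∧ D x < ((j : ℝ) + 1) * δ} :=
    (measurableSet_le measurable_const hD).inter (measurableSet_lt hD measurable_const)
  rw [← lintegral_indicator_const hS]
  refine lintegral_congr fun x => ?_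
  unfold wv
  rw [if_pos hs]
  by_cases h : (j : ℝ) * δ ≤ D x ∧ D x < ((j : ℝ) + 1) * δ
  · rw [if_pos h, Set.indicator_of_mem (show x ∈ _ from h)]
  · rw [if_neg h, Set.indicator_of_notMem (show x ∉ _ from h)]
-- END wvs

-- BEGIN wvo
/-- As `Vws.wt_other_gen` (Vws/Gen): the integrand is the sum of the indicators of `{jδ ≤ D}` and `{jδ ≤ D, M < (j+3)δ}`. -/
theorem wv_other {μ : Measure E} [IsProbabilityMeasure μ] {D M : E → ℝ} (hD : Measurable D)
    (hM : Measurable M) (δ : ℝ) (j : ℕ) (star : Prop) [Decidable star] (hs : ¬ star) :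
    ∫⁻ x, wv δ j star (D x) (M x) ∂μ =
      ENNReal.ofReal (1 - μ.real {x | D x < (j : ℝ) * δ} +
        μ.real {x | (j : ℝ) * δ ≤ D x ∧ M x < ((j : ℝ) + 3) * δ}) := by
  set S1 : Set E := {x | D x < (j : ℝ) * δ} with hS1
  set S3 : Set E := {x | (j : ℝ) * δ ≤ D x ∧ M x < ((j : ℝ) + 3) * δ} with hS3
  have m1 : MeasurableSet S1 := measurableSet_lt hD measurable_const
  have m3 : MeasurableSet S3 :=
    (measurableSet_le measurable_const hD).inter (measurableSet_lt hM measurable_const)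
  have e1 : ∫⁻ x, S1ᶜ.indicator (fun _ => (1 : ℝ≥0∞)) x ∂μ = μ S1ᶜ := by
    rw [lintegral_indicator_const m1.compl, one_mul]
  have e3 : ∫⁻ x, S3.indicator (fun _ => (1 : ℝ≥0∞)) x ∂μ = μ S3 := by
    rw [lintegral_indicator_const m3, one_mul]
  have n3 : Measurable (S3.indicator (fun _ => (1 : ℝ≥0∞))) := measurable_const.indicator m3
  have key : ∫⁻ x, wv δ j star (D x) (M x) ∂μ = μ S1ᶜ + μ S3 := by
    rw [← e1, ← e3, ← lintegral_add_right _ n3]
    refine lintegral_congr fun x => ?_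
    unfold wv
    rw [if_neg hs]
    by_cases h1 : D x < (j : ℝ) * δ
    · have hx1 : x ∉ S1ᶜ := fun hx => hx h1
      have hx3 : x ∉ S3 := fun hx => absurd h1 (not_lt.2 hx.1)
      rw [if_neg (not_le.2 h1), indicator_of_notMem hx1, indicator_of_notMem hx3, add_zero]
    · have hx1 : x ∈ S1ᶜ := h1
      rw [if_pos (not_lt.1 h1), indicator_of_mem hx1]
      by_cases h3 : M x < ((j : ℝ) + 3) * δ
      · rw [if_pos h3, indicator_of_mem (show x ∈ S3 from ⟨not_lt.1 h1, h3⟩), one_add_one_eq_two]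
      · rw [if_neg h3, indicator_of_notMem (fun hx : x ∈ S3 => h3 hx.2), add_zero]
  have f1 : μ S1ᶜ ≠ ⊤ := measure_ne_top μ _
  have f3 : μ S3 ≠ ⊤ := measure_ne_top μ _
  rw [key, ← probReal_compl_eq_one_sub m1, Measure.real, Measure.real,
    ENNReal.ofReal_add ENNReal.toReal_nonneg ENNReal.toReal_nonneg,
    ENNReal.ofReal_toReal f1, ENNReal.ofReal_toReal f3]
-- END wvo

-- BEGIN eng
/-- As `Vsn.per_point2` (Vsn/Good, row pg2), with rows wvs, wvo, tl3: `F i j = (μ i).real {D i < jδ}`, `A j = ∑ F i j`, `G j` = the sum in `hG`; the product over `i ≠ i0` is `≤ exp (∑_{i ≠ i0} (-F + G)) ≤ exp 1 * exp (-A j + G j)` (`F i0 j ≤ 1`, `G ≥ 0`; as `Vor.prod_exp`); `2 e · 3 e^(B+9) = 6 e^(B+10)`. -/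
theorem engine {n : ℕ} (μ : Fin n → Measure E) [∀ i, IsProbabilityMeasure (μ i)]
    (D M : Fin n → E → ℝ) (hD : ∀ i, Measurable (D i)) (hM : ∀ i, Measurable (M i))
    (h0 : ∀ i x, 0 ≤ D i x) {δ B : ℝ} (hδ : 0 < δ)
    (h : ∀ j : ℕ, ∑ i, (μ i).real {x | D i x < ((j + 1 : ℕ) : ℝ) * δ} -
      ∑ i, (μ i).real {x | D i x < (j : ℝ) * δ} ≤
      (∑ i, (μ i).real {x | D i x < ((j + 1 : ℕ) : ℝ) * δ}) / 12 + 18)
    (hG : ∀ j : ℕ, ∑ i, (μ i).real {x | (j : ℝ) * δ ≤ D i x ∧ M i x < ((j : ℝ) + 3) * δ} ≤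
      (∑ i, (μ i).real {x | D i x < (j : ℝ) * δ}) / 2 + B) :
    ∑' j : ℕ, ∑ i0, ∏ i, ∫⁻ x, wv δ j (i = i0) (D i x) (M i x) ∂(μ i) ≤
      ENNReal.ofReal (6 * Real.exp (B + 10)) := by
  set F : Fin n → ℕ → ℝ := fun i j => (μ i).real {x | D i x < (j : ℝ) * δ} with hF
  set g : Fin n → ℕ → ℝ := fun i j =>
    (μ i).real {x | (j : ℝ) * δ ≤ D i x ∧ M i x < ((j : ℝ) + 3) * δ} with hg
  set A : ℕ → ℝ := fun j => ∑ i, F i j with hA
  set G : ℕ → ℝ := fun j => ∑ i, g i j with hGd
  have hsub : ∀ i (a b : ℕ), a ≤ b → {x | D i x < (a : ℝ) * δ} ⊆ {x | D i x < (b : ℝ) * δ} := by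
    intro i a b hab x hx
    have hx' : D i x < (a : ℝ) * δ := hx
    have hab' : (a : ℝ) ≤ b := by exact_mod_cast hab
    exact hx'.trans_le (mul_le_mul_of_nonneg_right hab' hδ.le)
  have hF0 : ∀ i j, 0 ≤ F i j := fun i j => measureReal_nonneg
  have hF1 : ∀ i j, F i j ≤ 1 := fun i j => measureReal_le_one
  have hg0 : ∀ i j, 0 ≤ g i j := fun i j => measureReal_nonneg
  have hFm : ∀ i, Monotone (F i) := fun i a b hab => measureReal_mono (hsub i a b hab)
  have hFz : ∀ i, F i 0 = 0 := by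
    intro i
    have e : {x | D i x < ((0 : ℕ) : ℝ) * δ} = ∅ := by
      refine Set.eq_empty_of_forall_notMem fun x hx => ?_
      have hx' : D i x < ((0 : ℕ) : ℝ) * δ := hx
      rw [Nat.cast_zero, zero_mul] at hx'
      exact absurd hx' (not_lt.2 (h0 i x))
    show (μ i).real {x | D i x < ((0 : ℕ) : ℝ) * δ} = 0
    rw [e, measureReal_empty]
  have hAm : Monotone A := fun a b hab => Finset.sum_le_sum fun i _ => hFm i hab
  have hA0 : A 0 = 0 := Finset.sum_eq_zero fun i _ => hFz i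
  have hAd : ∀ j, A (j + 1) - A j = ∑ i, (F i (j + 1) - F i j) := fun j =>
    Finset.sum_sub_distrib .. |>.symm
  have hAs : ∀ j, A (j + 1) - A j ≤ A (j + 1) / 12 + 18 := fun j => h j
  have hGs : ∀ j, G j ≤ A j / 2 + B := fun j => hG j
  have hring : ∀ i (j : ℕ), (μ i) {x | (j : ℝ) * δ ≤ D i x ∧ D i x < ((j : ℝ) + 1) * δ} =
      ENNReal.ofReal (F i (j + 1) - F i j) := by
    intro i j
    have m1 : MeasurableSet {x | D i x < (j : ℝ) * δ} := measurableSet_lt (hD i) measurable_const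
    have e : {x | (j : ℝ) * δ ≤ D i x ∧ D i x < ((j : ℝ) + 1) * δ} =
        {x | D i x < ((j + 1 : ℕ) : ℝ) * δ} \ {x | D i x < (j : ℝ) * δ} := by
      ext x
      constructor
      · rintro ⟨h1, h2⟩
        refine ⟨?_, fun h3 => absurd h3 (not_lt.2 h1)⟩
        show D i x < ((j + 1 : ℕ) : ℝ) * δ
        rw [Nat.cast_add, Nat.cast_one]
        exact h2
      · rintro ⟨h1, h2⟩
        have h1' : D i x < ((j + 1 : ℕ) : ℝ) * δ := h1
        rw [Nat.cast_add, Nat.cast_one] at h1'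
        exact ⟨not_lt.1 h2, h1'⟩
    rw [e, measure_sdiff (hsub i j (j + 1) (Nat.le_succ j)) m1.nullMeasurableSet (measure_ne_top _ _),
      ENNReal.ofReal_sub _ (hF0 i j)]
    show _ = ENNReal.ofReal ((μ i).real _) - ENNReal.ofReal ((μ i).real _)
    rw [ofReal_measureReal, ofReal_measureReal]
  have hd0 : ∀ i j, 0 ≤ F i (j + 1) - F i j := fun i j => sub_nonneg.2 (hFm i (Nat.le_succ j))
  have hprod : ∀ j i0, ∏ i ∈ Finset.univ.erase i0, (1 - F i j + g i j) ≤
      Real.exp 1 * Real.exp (-A j + G j) := by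
    intro j i0
    have a : ∏ i ∈ Finset.univ.erase i0, (1 - F i j + g i j) ≤
        ∏ i ∈ Finset.univ.erase i0, Real.exp (-F i j + g i j) := by
      apply Finset.prod_le_prod
      · intro i _
        have := hF1 i j
        have := hg0 i j
        linarith
      · intro i _
        have := Real.add_one_le_exp (-F i j + g i j)
        linarith
    refine a.trans ?_
    rw [← Real.exp_sum, ← Real.exp_add]
    apply Real.exp_le_exp.2
    have e : ∑ i, (-F i j + g i j) = (-F i0 j + g i0 j) +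
        ∑ i ∈ Finset.univ.erase i0, (-F i j + g i j) :=
      (Finset.add_sum_erase Finset.univ _ (Finset.mem_univ i0)).symm
    have e2 : ∑ i, (-F i j + g i j) = -A j + G j := by
      rw [Finset.sum_add_distrib, Finset.sum_neg_distrib]
    have a1 := hF1 i0 j
    have a2 := hg0 i0 j
    linarith
  have term : ∀ j i0, ∏ i, ∫⁻ x, wv δ j (i = i0) (D i x) (M i x) ∂(μ i) ≤
      ENNReal.ofReal (2 * (F i0 (j + 1) - F i0 j) *
        (Real.exp 1 * Real.exp (-A j + G j))) := by
    intro j i0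
    rw [← Finset.mul_prod_erase Finset.univ _ (Finset.mem_univ i0)]
    have e1 : ∫⁻ x, wv δ j (i0 = i0) (D i0 x) (M i0 x) ∂(μ i0) =
        ENNReal.ofReal (2 * (F i0 (j + 1) - F i0 j)) := by
      rw [wv_star (hD i0) (M i0) δ j (i0 = i0) rfl, hring, ENNReal.ofReal_mul (by norm_num)]
      norm_num
    have e2 : ∀ i ∈ Finset.univ.erase i0, ∫⁻ x, wv δ j (i = i0) (D i x) (M i x) ∂(μ i) =
        ENNReal.ofReal (1 - F i j + g i j) := by
      intro i hi
      exact wv_other (hD i) (hM i) δ j (i = i0) (Finset.ne_of_mem_erase hi)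
    rw [Finset.prod_congr rfl e2, e1, ← ENNReal.ofReal_prod_of_nonneg,
      ← ENNReal.ofReal_mul (by have := hd0 i0 j; positivity)]
    · apply ENNReal.ofReal_le_ofReal
      exact mul_le_mul_of_nonneg_left (hprod j i0) (by have := hd0 i0 j; positivity)
    · intro i _
      have a1 := hF1 i j
      have a2 := hg0 i j
      linarith
  have row : ∀ j, ∑ i0, ∏ i, ∫⁻ x, wv δ j (i = i0) (D i x) (M i x) ∂(μ i) ≤
      ENNReal.ofReal (2 * Real.exp 1 *
        ((A (j + 1) - A j) * Real.exp (-A j + G j))) := by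
    intro j
    refine (Finset.sum_le_sum fun i0 _ => term j i0).trans ?_
    rw [← ENNReal.ofReal_sum_of_nonneg]
    · apply ENNReal.ofReal_le_ofReal
      apply le_of_eq
      rw [hAd, ← Finset.sum_mul, ← Finset.mul_sum]
      ring
    · intro i0 _
      have := hd0 i0 j
      positivity
  apply ENNReal.tsum_le_of_sum_range_le
  intro J
  refine (Finset.sum_le_sum fun j _ => row j).trans ?_
  rw [← ENNReal.ofReal_sum_of_nonneg]
  · apply ENNReal.ofReal_le_ofReal
    rw [← Finset.mul_sum]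
    have t := tele3 hA0 hAm hAs hGs J
    have e : (6 : ℝ) * Real.exp (B + 10) = 2 * Real.exp 1 * (3 * Real.exp (B + 9)) := by
      have : Real.exp (B + 10) = Real.exp 1 * Real.exp (B + 9) := by
        rw [← Real.exp_add]
        congr 1
        ring
      rw [this]
      ring
    rw [e]
    exact mul_le_mul_of_nonneg_left t (by positivity)
  · intro j _
    have : 0 ≤ A (j + 1) - A j := sub_nonneg.2 (hAm (by omega))
    positivity
-- END eng

-- BEGIN cn2
/-- As `Vor.count_le` and `Vor.count_faces`: `i0` minimises `D`, `j = ⌊D i0 / δ⌋₊`; `S ⊆ S' = {i | M i < (j+3) δ}`, `i0 ∈ S'`, the term `(j, i0)` is `2^#S'`; `Vor.pow_two_bound`. -/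
theorem count2 {n : ℕ} (hn : 0 < n) (D M : Fin n → ℝ) (h0 : ∀ i, 0 ≤ D i) (hM : ∀ i, M i ≤ D i)
    {δ : ℝ} (hδ : 0 < δ) (S : Finset (Fin n)) (hS : ∀ i ∈ S, ∀ j, M i < D j + 2 * δ) :
    (((16 * S.card ^ 2 + 13) ^ 3 : ℕ) : ℝ≥0∞) ≤
      5000000 * ∑' j : ℕ, ∑ i0, ∏ i, wv δ j (i = i0) (D i) (M i) := by
  have : Nonempty (Fin n) := ⟨⟨0, hn⟩⟩
  obtain ⟨i0, hi0⟩ := Finite.exists_min D
  set j : ℕ := ⌊D i0 / δ⌋₊ with hj
  have hj1 : (j : ℝ) * δ ≤ D i0 := by
    rw [← le_div_iff₀ hδ]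
    exact Nat.floor_le (div_nonneg (h0 i0) hδ.le)
  have hj2 : D i0 < ((j : ℝ) + 1) * δ := by
    rw [← div_lt_iff₀ hδ]
    exact Nat.lt_floor_add_one _
  set S' : Finset (Fin n) := Finset.univ.filter (fun i => M i < ((j : ℝ) + 3) * δ) with hS'
  have hiS : ∀ i, i ∈ S' ↔ M i < ((j : ℝ) + 3) * δ := fun i => by
    rw [hS', Finset.mem_filter]
    exact ⟨fun h => h.2, fun h => ⟨Finset.mem_univ _, h⟩⟩
  have hsub : S ⊆ S' := by
    intro i hi
    rw [hiS]
    have h1 := hS i hi i0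
    nlinarith
  have hi0S : i0 ∈ S' := by
    rw [hiS]
    have h1 := hM i0
    nlinarith
  have hterm : ∏ i, wv δ j (i = i0) (D i) (M i) = 2 ^ S'.card := by
    have h1 : ∀ i ∈ (Finset.univ : Finset (Fin n)), wv δ j (i = i0) (D i) (M i) =
        if i ∈ S' then (2 : ℝ≥0∞) else 1 := by
      intro i _
      unfold wv
      by_cases h : i = i0
      · subst h
        rw [if_pos rfl, if_pos ⟨hj1, hj2⟩, if_pos hi0S]
      · rw [if_neg h, if_pos (hj1.trans (hi0 i))]
        by_cases h2 : i ∈ S'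
        · rw [if_pos ((hiS i).1 h2), if_pos h2]
        · rw [if_neg (fun h3 => h2 ((hiS i).2 h3)), if_neg h2]
    rw [Finset.prod_congr rfl h1, Finset.prod_ite, Finset.prod_const_one, mul_one,
      Finset.prod_const, Finset.filter_mem_eq_inter, Finset.univ_inter]
  have hN : (16 * S.card ^ 2 + 13) ^ 3 ≤ 5000000 * 2 ^ S'.card :=
    (Vor.pow_two_bound S.card).trans
      (Nat.mul_le_mul_left _ (Nat.pow_le_pow_right (by norm_num) (Finset.card_le_card hsub)))
  calc (((16 * S.card ^ 2 + 13) ^ 3 : ℕ) : ℝ≥0∞)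
      ≤ ((5000000 * 2 ^ S'.card : ℕ) : ℝ≥0∞) := Nat.cast_le.2 hN
    _ = 5000000 * ∏ i, wv δ j (i = i0) (D i) (M i) := by
        rw [hterm, Nat.cast_mul, Nat.cast_pow, Nat.cast_ofNat, Nat.cast_ofNat]
    _ ≤ 5000000 * ∑ i0, ∏ i, wv δ j (i = i0) (D i) (M i) :=
        mul_le_mul_right (Finset.single_le_sum (f := fun i0 => ∏ i, wv δ j (i = i0) (D i) (M i))
          (fun _ _ => bot_le) (Finset.mem_univ i0)) _
    _ ≤ 5000000 * ∑' j : ℕ, ∑ i0, ∏ i, wv δ j (i = i0) (D i) (M i) :=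
        mul_le_mul_right (ENNReal.le_tsum
          (f := fun j : ℕ => ∑ i0, ∏ i, wv δ j (i = i0) (D i) (M i)) j) _
-- END cn2

-- BEGIN ex2
private theorem ex2_meas {D M : E → ℝ} (hD : Measurable D) (hM : Measurable M) (δ : ℝ) (j : ℕ)
    (star : Prop) [Decidable star] : Measurable fun x => wv δ j star (D x) (M x) := by
  unfold wv
  by_cases hs : star
  · simp only [if_pos hs]
    refine Measurable.ite ?_ measurable_const measurable_const
    exact (measurableSet_le measurable_const hD).inter (measurableSet_lt hD measurable_const)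
  · simp only [if_neg hs]
    refine Measurable.ite (measurableSet_le measurable_const hD) ?_ measurable_const
    exact Measurable.ite (measurableSet_lt hM measurable_const) measurable_const measurable_const

/-- As in `Vor.main_faces` / `Vsn.expect_cell`: `wv δ j star` is a measurable function of the pair, `Finset.measurable_prod`, `Measurable.ennreal_tsum`; `lintegral_tsum`, `lintegral_finsetSum`, `Vor.lintegral_pi_prod`. -/
theorem expect2 {n : ℕ} (μ : Fin n → Measure E) [∀ i, IsProbabilityMeasure (μ i)]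
    (D M : Fin n → E → ℝ) (hD : ∀ i, Measurable (D i)) (hM : ∀ i, Measurable (M i)) (δ : ℝ) :
    (Measurable fun p : Fin n → E =>
      ∑' j : ℕ, ∑ i0, ∏ i, wv δ j (i = i0) (D i (p i)) (M i (p i))) ∧
    ∫⁻ p, ∑' j : ℕ, ∑ i0, ∏ i, wv δ j (i = i0) (D i (p i)) (M i (p i)) ∂(Measure.pi μ) =
      ∑' j : ℕ, ∑ i0, ∏ i, ∫⁻ x, wv δ j (i = i0) (D i x) (M i x) ∂(μ i) := by
  have pm : ∀ j i0, Measurable (fun p : Fin n → E =>
      ∏ i, wv δ j (i = i0) (D i (p i)) (M i (p i))) := by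
    intro j i0
    refine Finset.measurable_prod _ fun i _ => ?_
    exact (ex2_meas (hD i) (hM i) δ j (i = i0)).comp (measurable_pi_apply i)
  refine ⟨Measurable.tsum fun j => Finset.measurable_sum _ fun i0 _ => pm j i0, ?_⟩
  rw [lintegral_tsum (fun j => (Finset.measurable_sum _ fun i0 _ => pm j i0).aemeasurable)]
  refine tsum_congr fun j => ?_
  rw [lintegral_finsetSum _ (fun i0 _ => pm j i0)]
  refine Finset.sum_congr rfl fun i0 _ => ?_
  exact Vor.lintegral_pi_prod μ (fun i x => wv δ j (i = i0) (D i x) (M i x))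
    (fun i => ex2_meas (hD i) (hM i) δ j (i = i0))
-- END ex2

end Pool.Agent.Van
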