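import Pool.Agent.Vsn.Cells

/-!
Log-Lipschitz densities: masses of thin cylinders and of neighbourhoods of strips
-/

set_option autoImplicit false

namespace Pool.Agent.Van

open MeasureTheory Set
open scoped ENNReal NNReal
open Pool.Agent.Vor (E dl line Near Faces)
open Pool.Agent.Vws (st)
open Pool.Agent.Vsn (LL lw ms)

/-- the strip of the lines with direction `u` through the segment `g + a w`, `|a| ≤ L` -/
def strip (u w g : E) (L : ℝ) : Set E := {y | ∃ a t : ℝ, |a| ≤ L ∧ y = g + a • w + t • u}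

-- BEGIN dsb
/-- `z ↦ z - ⟪u,z⟫ u` is linear, the triangle inequality; `dl u u = 0`; `dl u v ≤ ‖v‖`. -/
theorem dl_sub {u : E} (hu : ‖u‖ = 1) :
    (∀ z z', dl u z ≤ dl u z' + dl u (z - z')) ∧ (∀ z (t : ℝ), dl u (z + t • u) = dl u z) ∧
    ∀ v : E, ‖v‖ = 1 → dl u v ≤ 1 := by
  refine ⟨?_, ?_, ?_⟩
  · intro z z'
    unfold dl
    have e : z - (inner ℝ u z) • u =
        (z' - (inner ℝ u z') • u) + ((z - z') - (inner ℝ u (z - z')) • u) := by
      rw [inner_sub_right, sub_smul]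
      abel
    rw [e]
    exact norm_add_le _ _
  · intro z t
    unfold dl
    have e : z + t • u - (inner ℝ u (z + t • u)) • u = z - (inner ℝ u z) • u := by
      rw [inner_add_right, inner_smul_right, real_inner_self_eq_norm_sq, hu, one_pow, mul_one,
        add_smul]
      abel
    rw [e]
  · intro v hv
    exact ((Pool.Agent.Vor.dl_basic hu).2.2.1 v).trans hv.le
-- END dsb

-- BEGIN mlo
/-- As row csm of Vsn: `Vsn.ms_eq`, `Vsn.cyl_scale` for `h w = f (g - w)`: the mass of `{dl < tD}` is `t² ∫ over {dl < D} of h (st u t w)`, and `h w ≤ exp (l ‖w - st u t w‖) h (st u t w)`, `‖w - st u t w‖ = (t-1) dl u w ≤ (t-1) D` (`Vsn.csm_norm` or as in `Vsn.cyl_growth`). -/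
theorem ms_lower {l : ℝ} (hl : 0 ≤ l) {f : E → ℝ≥0} (hm : Measurable f)
    (h1 : ∫⁻ x, (f x : ℝ≥0∞) = 1) (hL : LL l f) {u : E} (hu : ‖u‖ = 1) (g : E) {D t : ℝ} (hD : 0 < D)
    (ht : 1 ≤ t) : t ^ 2 * ms u f g D ≤ Real.exp (l * ((t - 1) * D)) * ms u f g (t * D) := by
  have htp : 0 < t := lt_of_lt_of_le one_pos ht
  have h0 : ∀ D', 0 ≤ ms u f g D' := fun D' => measureReal_nonneg
  have hm' : Measurable fun w : E => f (g - w) := hm.comp (measurable_const.sub measurable_id)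
  have hL' : LL l fun w : E => f (g - w) := by
    intro x y
    have h2 := hL (g - x) (g - y)
    rw [sub_sub_sub_cancel_left, norm_sub_rev] at h2
    exact h2
  have hS : MeasurableSet {w : E | dl u w < D} :=
    measurableSet_lt (Pool.Agent.Vor.dl_basic hu).1.measurable measurable_const
  have key : ∫⁻ w in {w : E | dl u w < D}, (f (g - w) : ℝ≥0∞) ≤
      ENNReal.ofReal (Real.exp (l * ((t - 1) * D))) *
        ∫⁻ w in {w : E | dl u w < D}, (f (g - st u t w) : ℝ≥0∞) := by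
    rw [← lintegral_const_mul' _ _ ENNReal.ofReal_ne_top]
    refine setLIntegral_mono' hS fun w hw => ?_
    have hw' : dl u w < D := hw
    have e1 : (f (g - w) : ℝ) ≤ Real.exp (l * ((t - 1) * D)) * f (g - st u t w) := by
      refine (hL' w (st u t w)).trans ?_
      refine mul_le_mul_of_nonneg_right ?_ (NNReal.coe_nonneg _)
      refine Real.exp_le_exp.mpr ?_
      rw [Pool.Agent.Vsn.csm_norm ht]
      exact mul_le_mul_of_nonneg_left
        (mul_le_mul_of_nonneg_left hw'.le (sub_nonneg.mpr ht)) hl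
    rw [← ENNReal.ofReal_coe_nnreal, ← ENNReal.ofReal_coe_nnreal,
      ← ENNReal.ofReal_mul (Real.exp_pos _).le]
    exact ENNReal.ofReal_le_ofReal e1
  have hsc := Pool.Agent.Vsn.cyl_scale hu htp D (fun w : E => f (g - w)) hm'
  have h3 : ENNReal.ofReal (t ^ 2) * ENNReal.ofReal (ms u f g D) ≤
      ENNReal.ofReal (Real.exp (l * ((t - 1) * D))) * ENNReal.ofReal (ms u f g (t * D)) := by
    rw [Pool.Agent.Vsn.ms_eq hm h1 hu g (t * D), Pool.Agent.Vsn.ms_eq hm h1 hu g D, hsc]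
    calc ENNReal.ofReal (t ^ 2) * ∫⁻ w in {w : E | dl u w < D}, (f (g - w) : ℝ≥0∞)
        ≤ ENNReal.ofReal (t ^ 2) * (ENNReal.ofReal (Real.exp (l * ((t - 1) * D))) *
            ∫⁻ w in {w : E | dl u w < D}, (f (g - st u t w) : ℝ≥0∞)) := by
          gcongr
      _ = ENNReal.ofReal (Real.exp (l * ((t - 1) * D))) * (ENNReal.ofReal (t ^ 2) *
            ∫⁻ w in {w : E | dl u w < D}, (f (g - st u t w) : ℝ≥0∞)) := by
          exact mul_left_comm _ _ _
  rw [← ENNReal.ofReal_mul (by positivity), ← ENNReal.ofReal_mul (Real.exp_pos _).le] at h3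
  exact (ENNReal.ofReal_le_ofReal_iff (mul_nonneg (Real.exp_pos _).le (h0 _))).mp h3
-- END mlo

-- BEGIN mth
/-- Row mlo with `t = D'/D`; `exp (l (D' - D)) ≤ exp 1 ≤ 3` (`Real.exp_one_lt_d9`). -/
theorem ms_thin {l : ℝ} (hl : 0 ≤ l) {f : E → ℝ≥0} (hm : Measurable f)
    (h1 : ∫⁻ x, (f x : ℝ≥0∞) = 1) (hL : LL l f) {u : E} (hu : ‖u‖ = 1) (g : E) {D D' : ℝ}
    (hD : 0 < D) (hDD : D ≤ D') (hlD : l * D' ≤ 1) :
    ms u f g D ≤ 3 * (D / D') ^ 2 * ms u f g D' := by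
  have hD' : 0 < D' := hD.trans_le hDD
  have ht : 1 ≤ D' / D := by rwa [one_le_div hD]
  have h := ms_lower hl hm h1 hL hu g hD ht
  have e1 : D' / D * D = D' := div_mul_cancel₀ _ hD.ne'
  have e2 : (D' / D - 1) * D = D' - D := by rw [sub_mul, e1, one_mul]
  rw [e1, e2] at h
  have h3 : Real.exp (l * (D' - D)) ≤ 3 := by
    have h4 : l * (D' - D) ≤ 1 := by
      have : 0 ≤ l * D := mul_nonneg hl hD.le
      rw [mul_sub]
      linarith
    calc _ ≤ Real.exp 1 := Real.exp_le_exp.2 h4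
      _ ≤ 3 := by linarith [Real.exp_one_lt_d9]
  have h0 : 0 ≤ ms u f g D' := measureReal_nonneg
  have h4 : (D' / D) ^ 2 * ms u f g D ≤ 3 * ms u f g D' := h.trans (mul_le_mul_of_nonneg_right h3 h0)
  have e3 : (D / D') ^ 2 * (D' / D) ^ 2 = 1 := by
    field_simp
  calc ms u f g D = (D / D') ^ 2 * ((D' / D) ^ 2 * ms u f g D) := by rw [← mul_assoc, e3, one_mul]
    _ ≤ (D / D') ^ 2 * (3 * ms u f g D') := mul_le_mul_of_nonneg_left h4 (by positivity)
    _ = _ := by ring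
-- END mth

-- BEGIN mtk
/-- `Vsn.ms_growth` with `t = D'/D`; `exp (l (D' - D)) ≤ exp 1 ≤ 3`. -/
theorem ms_thick {l : ℝ} (hl : 0 ≤ l) {f : E → ℝ≥0} (hm : Measurable f)
    (h1 : ∫⁻ x, (f x : ℝ≥0∞) = 1) (hL : LL l f) {u : E} (hu : ‖u‖ = 1) (g : E) {D D' : ℝ}
    (hD : 0 < D) (hDD : D ≤ D') (hlD : l * D' ≤ 1) :
    (D / D') ^ 2 * ms u f g D' ≤ 3 * ms u f g D := by
  have hD' : 0 < D' := lt_of_lt_of_le hD hDD
  have ht : 1 ≤ D' / D := (one_le_div hD).mpr hDD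
  have h2 := Pool.Agent.Vsn.ms_growth hl hm h1 hL hu g hD ht
  have h3 : D' / D * D = D' := div_mul_cancel₀ D' (ne_of_gt hD)
  have h4 : (D' / D - 1) * D = D' - D := by rw [sub_mul, h3, one_mul]
  rw [h3, h4] at h2
  have h5 : l * (D' - D) ≤ 1 := by
    have h6 : 0 ≤ l * D := mul_nonneg hl (le_of_lt hD)
    have h7 : l * (D' - D) = l * D' - l * D := mul_sub l D' D
    linarith
  have h6 : Real.exp (l * (D' - D)) ≤ 3 := by
    have h7 : Real.exp (l * (D' - D)) ≤ Real.exp 1 := Real.exp_le_exp.mpr h5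
    have h8 := Real.exp_one_lt_d9
    linarith
  have h7 : (D / D') ^ 2 * (D' / D) ^ 2 = 1 := by
    rw [← mul_pow]
    have h8 : D / D' * (D' / D) = 1 := by
      field_simp
    rw [h8, one_pow]
  have h8 : 0 ≤ ms u f g D := (Pool.Agent.Vsn.ms_basic h1 hu g D).1
  calc (D / D') ^ 2 * ms u f g D'
      ≤ (D / D') ^ 2 * ((D' / D) ^ 2 * Real.exp (l * (D' - D)) * ms u f g D) :=
        mul_le_mul_of_nonneg_left h2 (by positivity)
    _ = ((D / D') ^ 2 * (D' / D) ^ 2) * (Real.exp (l * (D' - D)) * ms u f g D) := by ring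
    _ = Real.exp (l * (D' - D)) * ms u f g D := by rw [h7, one_mul]
    _ ≤ 3 * ms u f g D := mul_le_mul_of_nonneg_right h6 h8
-- END mtk

-- BEGIN rg3
/-- As `Vsn.ring_cond`. `D ≥ 40 δ`: `Vsn.ms_growth` with `t = (D+δ)/D ≤ 41/40`, factor `≤ (41/40)² exp (l δ) ≤ 12/11`. `D < 40 δ`: `ms (D+δ) ≤ ms (43 δ)`, `ms D ≥ 0` (`Vsn.ms_basic`). -/
theorem ring3 {l : ℝ} (hl : 0 < l) {f : E → ℝ≥0} (hm : Measurable f)
    (h1 : ∫⁻ x, (f x : ℝ≥0∞) = 1) (hL : LL l f) {u : E} (hu : ‖u‖ = 1) (g : E) {δ : ℝ} (hδ : 0 < δ)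
    (hlδ : l * δ ≤ 1 / 40) (D : ℝ) :
    ms u f g (D + δ) - ms u f g D ≤ ms u f g (D + δ) / 12 + ms u f g (43 * δ) := by
  have hb : ∀ D : ℝ, 0 ≤ ms u f g D := fun D => (Vsn.ms_basic h1 hu g D).1
  by_cases hj : 40 * δ ≤ D
  · have hD : 0 < D := by linarith
    have ht : (1 : ℝ) ≤ (D + δ) / D := by
      rw [le_div_iff₀ hD]
      linarith
    have h2 := Vsn.ms_growth hl.le hm h1 hL hu g (D := D) (t := (D + δ) / D) hD ht
    have e1 : (D + δ) / D * D = D + δ := by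
      field_simp
    have e2 : ((D + δ) / D - 1) * D = δ := by
      field_simp
      ring
    rw [e1, e2] at h2
    have h3 : (D + δ) / D ≤ 41 / 40 := by
      rw [div_le_div_iff₀ hD (by norm_num)]
      linarith
    have h4 : ((D + δ) / D) ^ 2 ≤ (41 / 40) ^ 2 :=
      pow_le_pow_left₀ (by linarith) h3 2
    have h5 : Real.exp (l * δ) ≤ 40 / 39 := by
      have h6 : 1 - l * δ ≤ Real.exp (-(l * δ)) := by
        have := Real.add_one_le_exp (-(l * δ))
        linarith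
      have h7 : (39 : ℝ) / 40 ≤ Real.exp (-(l * δ)) := by linarith
      have h8 : Real.exp (l * δ) * Real.exp (-(l * δ)) = 1 := by
        rw [← Real.exp_add, add_neg_cancel, Real.exp_zero]
      have h9 := Real.exp_pos (l * δ)
      nlinarith
    have h6 : ((D + δ) / D) ^ 2 * Real.exp (l * δ) ≤ 12 / 11 := by
      calc ((D + δ) / D) ^ 2 * Real.exp (l * δ) ≤ (41 / 40) ^ 2 * (40 / 39) :=
            mul_le_mul h4 h5 (Real.exp_pos _).le (by norm_num)
        _ ≤ 12 / 11 := by norm_num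
    have h7 : ms u f g (D + δ) ≤ 12 / 11 * ms u f g D :=
      h2.trans (mul_le_mul_of_nonneg_right h6 (hb _))
    have h8 := hb (43 * δ)
    linarith
  · have h2 : ms u f g (D + δ) ≤ ms u f g (43 * δ) := by
      refine (Vsn.ms_basic h1 hu g (D + δ)).2.2 g (43 * δ) ?_
      rw [sub_self, norm_zero, add_zero]
      linarith
    have h3 := hb D
    have h4 := hb (D + δ)
    linarith
-- END rg3

-- BEGIN rg4
theorem rg4_exp {x : ℝ} : Real.exp x * (1 - x) ≤ 1 := by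
  have h1 : 1 - x ≤ Real.exp (-x) := by
    have := Real.add_one_le_exp (-x)
    linarith
  have h2 := mul_le_mul_of_nonneg_left h1 (Real.exp_pos x).le
  rwa [← Real.exp_add, add_neg_cancel, Real.exp_zero] at h2

/-- `j ≥ 40`: `Vsn.ms_growth` with `t = (j+3)/j ≤ 43/40`, factor `≤ (43/40)² exp (3 l δ) ≤ (43/40)² (40/37) ≤ 5/4`. `j < 40`: `ms ((j+3) δ) ≤ ms (43 δ)`, `ms (j δ) ≥ 0`. (With `l δ ≤ 1/100` instead of `1/40`: `exp (3 l δ) ≤ 100/97`.) -/
theorem ring4 {l : ℝ} (hl : 0 < l) {f : E → ℝ≥0} (hm : Measurable f)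
    (h1 : ∫⁻ x, (f x : ℝ≥0∞) = 1) (hL : LL l f) {u : E} (hu : ‖u‖ = 1) (g : E) {δ : ℝ} (hδ : 0 < δ)
    (hlδ : l * δ ≤ 1 / 100) (j : ℕ) :
    ms u f g (((j : ℝ) + 3) * δ) - ms u f g ((j : ℝ) * δ) ≤
      ms u f g ((j : ℝ) * δ) / 4 + ms u f g (43 * δ) := by
  have hnn : ∀ D, 0 ≤ ms u f g D := fun D => (Pool.Agent.Vsn.ms_basic h1 hu g D).1
  rcases lt_or_ge j 40 with hj | hj
  · have hj' : (j : ℝ) + 3 ≤ 43 := by
      have : (j : ℝ) ≤ 40 := by exact_mod_cast hj.le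
      linarith
    have h2 : ms u f g (((j : ℝ) + 3) * δ) ≤ ms u f g (43 * δ) := by
      refine (Pool.Agent.Vsn.ms_basic h1 hu g (((j : ℝ) + 3) * δ)).2.2 g (43 * δ) ?_
      rw [sub_self, norm_zero, add_zero]
      exact mul_le_mul_of_nonneg_right hj' hδ.le
    have h3 := hnn ((j : ℝ) * δ)
    linarith
  · have hj' : (40 : ℝ) ≤ (j : ℝ) := by exact_mod_cast hj
    have hjp : (0 : ℝ) < (j : ℝ) := by linarith
    have hD : 0 < (j : ℝ) * δ := mul_pos hjp hδ
    set t : ℝ := ((j : ℝ) + 3) / (j : ℝ) with ht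
    have ht1 : 1 ≤ t := by
      rw [ht, le_div_iff₀ hjp]
      linarith
    have ht2 : t ≤ 43 / 40 := by
      rw [ht, div_le_iff₀ hjp]
      linarith
    have htD : t * ((j : ℝ) * δ) = ((j : ℝ) + 3) * δ := by
      rw [ht]
      field_simp
    have htD' : (t - 1) * ((j : ℝ) * δ) = 3 * δ := by
      rw [sub_mul, htD]
      ring
    have h2 := Pool.Agent.Vsn.ms_growth hl.le hm h1 hL hu g hD ht1
    rw [htD, htD'] at h2
    have h3 : Real.exp (l * (3 * δ)) ≤ 100 / 97 := by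
      have h4 := rg4_exp (x := l * (3 * δ))
      have h5 := Real.exp_pos (l * (3 * δ))
      have h6 : 97 / 100 ≤ 1 - l * (3 * δ) := by
        have : l * (3 * δ) = 3 * (l * δ) := by ring
        rw [this]
        linarith
      have h7 := mul_le_mul_of_nonneg_left h6 h5.le
      linarith
    have h8 : t ^ 2 * Real.exp (l * (3 * δ)) ≤ 5 / 4 := by
      have h9 : t ^ 2 ≤ (43 / 40) ^ 2 := pow_le_pow_left₀ (by linarith) ht2 2
      calc t ^ 2 * Real.exp (l * (3 * δ)) ≤ (43 / 40) ^ 2 * (100 / 97) :=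
            mul_le_mul h9 h3 (Real.exp_pos _).le (by norm_num)
        _ ≤ 5 / 4 := by norm_num
    have h10 := mul_le_mul_of_nonneg_right h8 (hnn ((j : ℝ) * δ))
    have h11 := hnn (43 * δ)
    linarith
-- END rg4

-- BEGIN rg5
theorem rg5_exp {x : ℝ} : Real.exp x * (1 - x) ≤ 1 := by
  have h1 : 1 - x ≤ Real.exp (-x) := by
    have := Real.add_one_le_exp (-x)
    linarith
  have h2 := mul_le_mul_of_nonneg_left h1 (Real.exp_pos x).le
  rwa [← Real.exp_add, add_neg_cancel, Real.exp_zero] at h2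

/-- `Vsn.ms_growth` with `t = D₂/D₁ ≤ 6/5`: factor `≤ (36/25) exp (1/50) ≤ (36/25) (50/49) ≤ 3/2`. -/
theorem ring5 {l : ℝ} (hl : 0 < l) {f : E → ℝ≥0} (hm : Measurable f)
    (h1 : ∫⁻ x, (f x : ℝ≥0∞) = 1) (hL : LL l f) {u : E} (hu : ‖u‖ = 1) (g : E) {D₁ D₂ : ℝ}
    (h0 : 0 < D₁) (h12 : D₁ ≤ D₂) (h2 : D₂ ≤ 6 / 5 * D₁) (hl2 : l * (D₂ - D₁) ≤ 1 / 50) :
    ms u f g D₂ - ms u f g D₁ ≤ ms u f g D₁ / 2 := by
  have hnn : 0 ≤ ms u f g D₁ := (Pool.Agent.Vsn.ms_basic h1 hu g D₁).1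
  set t : ℝ := D₂ / D₁ with ht
  have ht1 : 1 ≤ t := by
    rw [ht, le_div_iff₀ h0]
    linarith
  have ht2 : t ≤ 6 / 5 := by
    rw [ht, div_le_iff₀ h0]
    exact h2
  have htD : t * D₁ = D₂ := by
    rw [ht]
    exact div_mul_cancel₀ _ h0.ne'
  have htD' : (t - 1) * D₁ = D₂ - D₁ := by
    rw [sub_mul, htD, one_mul]
  have h3 := Pool.Agent.Vsn.ms_growth hl.le hm h1 hL hu g h0 ht1
  rw [htD, htD'] at h3
  have h4 : Real.exp (l * (D₂ - D₁)) ≤ 50 / 49 := by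
    have h5 := rg5_exp (x := l * (D₂ - D₁))
    have h6 : 49 / 50 ≤ 1 - l * (D₂ - D₁) := by linarith
    have h7 := mul_le_mul_of_nonneg_left h6 (Real.exp_pos (l * (D₂ - D₁))).le
    linarith
  have h8 : t ^ 2 * Real.exp (l * (D₂ - D₁)) ≤ 3 / 2 := by
    have h9 : t ^ 2 ≤ (6 / 5) ^ 2 := pow_le_pow_left₀ (by linarith) ht2 2
    calc t ^ 2 * Real.exp (l * (D₂ - D₁)) ≤ (6 / 5) ^ 2 * (50 / 49) :=
          mul_le_mul h9 h4 (Real.exp_pos _).le (by norm_num)
      _ ≤ 3 / 2 := by norm_num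
  have h10 := mul_le_mul_of_nonneg_right h8 hnn
  linarith
-- END rg5

-- BEGIN hit
private theorem hit_round {D : ℝ} (hD : 0 < D) (a : ℝ) :
    ∃ m : ℤ, |a - m * D| < D ∧ |(m : ℝ) * D| ≤ |a| := by
  rcases le_total 0 a with h | h
  · have h1 : (⌊a / D⌋ : ℝ) * D ≤ a := (le_div_iff₀ hD).1 (Int.floor_le (a / D))
    have h2 : a < ((⌊a / D⌋ : ℝ) + 1) * D := (div_lt_iff₀ hD).1 (Int.lt_floor_add_one (a / D))
    have h3 : (0 : ℝ) ≤ (⌊a / D⌋ : ℝ) := by exact_mod_cast Int.floor_nonneg.2 (div_nonneg h hD.le)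
    refine ⟨⌊a / D⌋, ?_, ?_⟩
    · rw [abs_of_nonneg (by linarith)]; linarith
    · rw [abs_of_nonneg (mul_nonneg h3 hD.le), abs_of_nonneg h]; exact h1
  · have h1 : a ≤ (⌈a / D⌉ : ℝ) * D := (div_le_iff₀ hD).1 (Int.le_ceil (a / D))
    have h2 : ((⌈a / D⌉ : ℝ) - 1) * D < a := by
      have h4 := Int.ceil_lt_add_one (a / D)
      exact (lt_div_iff₀ hD).1 (by linarith)
    have h3 : (⌈a / D⌉ : ℝ) ≤ 0 := by
      exact_mod_cast Int.ceil_le.2 (by
        rw [Int.cast_zero]; exact div_nonpos_of_nonpos_of_nonneg h hD.le)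
    refine ⟨⌈a / D⌉, ?_, ?_⟩
    · rw [abs_of_nonpos (by linarith)]; linarith
    · rw [abs_of_nonpos (mul_nonpos_of_nonpos_of_nonneg h3 hD.le), abs_of_nonpos h]; linarith

/-- If the distance is `< D` there are `|a| ≤ L`, `t` with `‖x - (g + a w + t u)‖ < D`, so `dl u (g + a w - x) < D` (row dsb). For `m` = the integer nearest to `a/D` in the direction of 0 (`|a - m D| < D`, `|m D| ≤ |a| ≤ L`, `|m| ≤ ⌊L/D⌋`) `dl u (g + m D w - x) < 2D`. Union bound over `Finset.Icc (-⌊L/D⌋) ⌊L/D⌋`: `2⌊L/D⌋ + 1 ≤ 1 + 2L/D` terms `≤ B` (`measureReal_mono`, `measureReal_biUnion_finset_le`). -/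
theorem ms_hit {f : E → ℝ≥0} (h1 : ∫⁻ x, (f x : ℝ≥0∞) = 1) {u w : E} (hu : ‖u‖ = 1) (hw : ‖w‖ = 1)
    (g : E) {L D B : ℝ} (hL : 0 < L) (hD : 0 < D)
    (hB : ∀ a : ℝ, |a| ≤ L → ms u f (g + a • w) (2 * D) ≤ B) :
    (lw f).real {x | Metric.infDist x (strip u w g L) < D} ≤ (1 + 2 * L / D) * B := by
  classical
  have hp : IsProbabilityMeasure (lw f) := Pool.Agent.Vor.main_prob h1
  have hb := Pool.Agent.Vor.dl_basic hu
  obtain ⟨N, hN⟩ : ∃ N : ℤ, N = ⌊L / D⌋ := ⟨_, rfl⟩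
  have hN0 : 0 ≤ N := by
    rw [hN]; exact Int.floor_nonneg.2 (div_nonneg hL.le hD.le)
  have hND : (N : ℝ) ≤ L / D := by
    rw [hN]; exact Int.floor_le (L / D)
  have hNL : (N : ℝ) * D ≤ L := (le_div_iff₀ hD).1 hND
  have hB0 : 0 ≤ B := by
    have h2 := hB 0 (by rw [abs_zero]; exact hL.le)
    exact le_trans ENNReal.toReal_nonneg h2
  have hsub : {x | Metric.infDist x (strip u w g L) < D} ⊆
      ⋃ m ∈ Finset.Icc (-N) N, {x | dl u (g + ((m : ℝ) * D) • w - x) < 2 * D} := by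
    intro x hx
    have hne : (strip u w g L).Nonempty := ⟨g, 0, 0, by rw [abs_zero]; exact hL.le, by simp⟩
    obtain ⟨y, hy, hxy⟩ := (Metric.infDist_lt_iff hne).1 hx
    obtain ⟨a, t, ha, rfl⟩ := hy
    have h3 : dl u (g + a • w - x) < D := by
      have h4 := (dl_sub hu).2.1 (g + a • w - x) t
      rw [← h4]
      refine lt_of_le_of_lt (hb.2.2.1 _) ?_
      rw [dist_comm, dist_eq_norm] at hxy
      have e : g + a • w - x + t • u = g + a • w + t • u - x := by abel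
      rw [e]; exact hxy
    obtain ⟨m, hm1, hm2⟩ := hit_round hD a
    have hm3 : |(m : ℝ)| ≤ L / D := by
      rw [le_div_iff₀ hD]
      calc |(m : ℝ)| * D = |(m : ℝ) * D| := by rw [abs_mul, abs_of_pos hD]
        _ ≤ L := hm2.trans ha
    refine mem_iUnion₂.2 ⟨m, Finset.mem_Icc.2 ⟨?_, ?_⟩, ?_⟩
    · have h5 : -m ≤ N := by
        rw [hN]
        refine Int.le_floor.2 ?_
        rw [Int.cast_neg]
        exact (neg_le_abs _).trans hm3
      omega
    · rw [hN]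
      exact Int.le_floor.2 ((le_abs_self _).trans hm3)
    · have h5 := hb.2.2.2.2.2 (g + ((m : ℝ) * D) • w - x) (g + a • w - x)
      have e : (g + ((m : ℝ) * D) • w - x) - (g + a • w - x) = ((m : ℝ) * D - a) • w := by
        rw [sub_smul]; abel
      rw [e, norm_smul, hw, mul_one, Real.norm_eq_abs, abs_sub_comm] at h5
      show dl u (g + ((m : ℝ) * D) • w - x) < 2 * D
      linarith
  have hcard : ((Finset.Icc (-N) N).card : ℝ) = 2 * (N : ℝ) + 1 := by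
    have h6 : ((Finset.Icc (-N) N).card : ℤ) = 2 * N + 1 := by
      rw [Int.card_Icc, Int.toNat_of_nonneg (by omega)]; ring
    exact_mod_cast h6
  calc (lw f).real {x | Metric.infDist x (strip u w g L) < D}
      ≤ (lw f).real (⋃ m ∈ Finset.Icc (-N) N,
          {x | dl u (g + ((m : ℝ) * D) • w - x) < 2 * D}) :=
        measureReal_mono hsub (measure_ne_top _ _)
    _ ≤ ∑ m ∈ Finset.Icc (-N) N, (lw f).real {x | dl u (g + ((m : ℝ) * D) • w - x) < 2 * D} :=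
        measureReal_biUnion_finset_le _ _
    _ ≤ ∑ m ∈ Finset.Icc (-N) N, B := by
        refine Finset.sum_le_sum fun m hm => ?_
        refine hB ((m : ℝ) * D) ?_
        rw [Finset.mem_Icc] at hm
        have h7 : |(m : ℝ)| ≤ N := by
          rw [abs_le]
          exact ⟨by exact_mod_cast hm.1, by exact_mod_cast hm.2⟩
        rw [abs_mul, abs_of_pos hD]
        exact (mul_le_mul_of_nonneg_right h7 hD.le).trans hNL
    _ = (2 * (N : ℝ) + 1) * B := by rw [Finset.sum_const, nsmul_eq_mul, hcard]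
    _ ≤ (1 + 2 * L / D) * B := by
        refine mul_le_mul_of_nonneg_right ?_ hB0
        have h8 : 2 * L / D = 2 * (L / D) := by ring
        rw [h8]; linarith
-- END hit

end Pool.Agent.Van
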