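import Pool.Agent.Van.Base

/-!
The sum over the base cubes
-/

set_option autoImplicit false

namespace Pool.Agent.Van

open MeasureTheory Set
open scoped ENNReal NNReal
open Pool.Agent.Vor (E dl line Near Faces)
open Pool.Agent.Vsn (LL lw ms ctr rng)

-- BEGIN vo2
private theorem vo2_le {u w : E} (hw : ‖w‖ = 1) (h : (inner ℝ w u : ℝ) = 0) (z : E) :
    |(inner ℝ w z : ℝ)| ≤ dl u z := by
  have h1 : (inner ℝ w z : ℝ) = inner ℝ w (z - (inner ℝ u z : ℝ) • u) := by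
    rw [inner_sub_right, inner_smul_right, h]; ring
  rw [h1]
  have h2 := abs_real_inner_le_norm w (z - (inner ℝ u z : ℝ) • u)
  rw [hw, one_mul] at h2
  exact h2

private theorem vo2_basis {u e : E} (hu : ‖u‖ = 1) (he : ‖e‖ = 1) (h : (inner ℝ u e : ℝ) = 0) :
    ∃ b : OrthonormalBasis (Fin 3) ℝ E, b 0 = u ∧ b 1 = e := by
  have h1 : Orthonormal ℝ (({0, 1} : Set (Fin 3)).domRestrict (fun i => if i = 0 then u else e)) := by
    constructor
    · rintro ⟨i, hi⟩
      rcases hi with rfl | hi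
      · simpa using! hu
      · have hi' : i = 1 := hi
        subst hi'
        simpa using! he
    · rintro ⟨i, hi⟩ ⟨j, hj⟩ hij
      have hij' : i ≠ j := fun h => hij (Subtype.ext h)
      rcases hi with rfl | hi
      · rcases hj with rfl | hj
        · exact absurd rfl hij'
        · have hj' : j = 1 := hj
          subst hj'
          simpa using! h
      · have hi' : i = 1 := hi
        subst hi'
        rcases hj with rfl | hj
        · have h' : (inner ℝ e u : ℝ) = 0 := by rw [real_inner_comm]; exact h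
          simpa using! h'
        · have hj' : j = 1 := hj
          exact absurd hj'.symm hij'
  obtain ⟨b, hb⟩ := Orthonormal.exists_orthonormalBasis_extension_of_card_eq (ι := Fin 3) (by simp) h1
  refine ⟨b, hb 0 (by simp), ?_⟩
  have := hb 1 (by simp)
  simpa using this

private theorem vo2_box (b : OrthonormalBasis (Fin 3) ℝ E) (d : Fin 3 → ℝ) {r : ℝ} (hr : 0 < r) :
    volume {y : E | ∀ i, |b.repr y i - d i| < r} = ENNReal.ofReal (8 * r ^ 3) := by
  have e1 : MeasurePreserving b.repr volume volume := b.measurePreserving_repr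
  have e2 : MeasurePreserving (@WithLp.ofLp 2 (Fin 3 → ℝ)) := PiLp.volume_preserving_ofLp _
  have e3 := e2.comp e1
  have hS : {y : E | ∀ i, |b.repr y i - d i| < r} = ((@WithLp.ofLp 2 (Fin 3 → ℝ)) ∘ b.repr) ⁻¹'
      (Set.pi univ fun i => Ioo (d i - r) (d i + r)) := by
    ext y
    simp only [Set.mem_ofPred_eq, mem_preimage, Set.mem_pi, mem_univ, true_imp_iff, mem_Ioo,
      Function.comp_apply]
    refine forall_congr' fun i => ?_
    rw [abs_lt]
    constructor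
    · rintro ⟨h1, h2⟩
      constructor <;> linarith
    · rintro ⟨h1, h2⟩
      constructor <;> linarith
  rw [hS, e3.measure_preimage (MeasurableSet.univ_pi fun i => measurableSet_Ioo).nullMeasurableSet,
    Real.volume_pi_Ioo]
  have : ∀ i, d i + r - (d i - r) = 2 * r := fun i => by ring
  simp only [this]
  rw [Finset.prod_const, Finset.card_univ, Fintype.card_fin, ← ENNReal.ofReal_pow (by positivity)]
  congr 1
  ring

/-- `s = dl u v > 0` (otherwise trivial). `e = (v - ⟪u,v⟫ u)/s`, `(u, e, k)` an orthonormal basis, `v = ⟪u,v⟫ u + s e`, `v' = -s u + ⟪u,v⟫ e` is a unit vector orthogonal to `v`. On the set `|⟪e, x - a⟫| < b`, `|⟪k, x - a⟫| < b`, `|⟪v', x - c⟫| < b`. The linear map `x ↦ (⟪v', x⟫, ⟪e, x⟫, ⟪k, x⟫)` has determinant `∓ s` and the image of the set lies in a box of volume `(2b)³` (`Measure.addHaar_preimage_linearMap` or `addHaar_image_linearMap`). -/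
theorem vol_two {u v : E} (hu : ‖u‖ = 1) (hv : ‖v‖ = 1) (a c : E) {b : ℝ} (hb : 0 < b) :
    ENNReal.ofReal (dl u v) * volume {x : E | dl u (x - a) < b ∧ dl v (x - c) < b} ≤
      ENNReal.ofReal (8 * b ^ 3) := by
  obtain ⟨s, hs⟩ : ∃ s : ℝ, s = dl u v := ⟨_, rfl⟩
  obtain ⟨q, hq⟩ : ∃ q : ℝ, q = inner ℝ u v := ⟨_, rfl⟩
  rw [← hs]
  have hsd : s = ‖v - q • u‖ := by rw [hs, hq]; rfl
  rcases (norm_nonneg (v - q • u)).eq_or_lt with h0 | h0
  · rw [hsd, ← h0]; simp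
  rw [← hsd] at h0
  have huu : (inner ℝ u u : ℝ) = 1 := by rw [real_inner_self_eq_norm_sq, hu]; norm_num
  have hvv : (inner ℝ v v : ℝ) = 1 := by rw [real_inner_self_eq_norm_sq, hv]; norm_num
  have hvu : (inner ℝ v u : ℝ) = q := by rw [real_inner_comm]; exact hq.symm
  have hss : s ^ 2 = 1 - q ^ 2 := by
    rw [hsd, ← real_inner_self_eq_norm_sq]
    simp only [inner_sub_left, inner_sub_right, inner_smul_left, inner_smul_right, huu, hvv, hvu,
      ← hq]
    simp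
    ring
  obtain ⟨e, he⟩ : ∃ e : E, e = s⁻¹ • (v - q • u) := ⟨_, rfl⟩
  have hen : ‖e‖ = 1 := by
    rw [he, norm_smul, ← hsd, norm_inv, Real.norm_of_nonneg h0.le]
    exact inv_mul_cancel₀ h0.ne'
  have hue : (inner ℝ u e : ℝ) = 0 := by
    rw [he, inner_smul_right, inner_sub_right, inner_smul_right, huu, ← hq]; ring
  have hee : (inner ℝ e e : ℝ) = 1 := by rw [real_inner_self_eq_norm_sq, hen]; norm_num
  have heu : (inner ℝ e u : ℝ) = 0 := by rw [real_inner_comm]; exact hue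
  have hve : v = q • u + s • e := by
    rw [he, smul_smul, mul_inv_cancel₀ h0.ne', one_smul]
    abel
  obtain ⟨B, hB0, hB1⟩ := vo2_basis hu hen hue
  obtain ⟨v', hv'⟩ : ∃ v' : E, v' = (-s) • u + q • e := ⟨_, rfl⟩
  have hv'n : ‖v'‖ = 1 := by
    have : ‖v'‖ ^ 2 = 1 := by
      rw [← real_inner_self_eq_norm_sq, hv']
      simp only [inner_add_left, inner_add_right, inner_smul_left, inner_smul_right, huu, hee, hue,
        heu]
      simp
      nlinarith [hss]
    nlinarith [norm_nonneg v']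
  have hv'v : (inner ℝ v' v : ℝ) = 0 := by
    rw [hve, hv']
    simp only [inner_add_left, inner_add_right, inner_smul_left, inner_smul_right, huu, hee, hue,
      heu]
    simp
    ring
  let M : Matrix (Fin 3) (Fin 3) ℝ := !![-s, q, 0; 0, 1, 0; 0, 0, 1]
  let T : E →ₗ[ℝ] E := Matrix.toLin B.toBasis B.toBasis M
  have hdet : LinearMap.det T = -s := by
    rw [LinearMap.det_toLin]
    simp [M, Matrix.det_fin_three]
  have hT : ∀ x i, B.repr (T x) i = (M.mulVec (fun j => B.repr x j)) i := by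
    intro x i
    have := congrFun (LinearMap.toMatrix_mulVec_repr B.toBasis B.toBasis T x) i
    rw [LinearMap.toMatrix_toLin] at this
    have h5 : (fun j => B.repr x j) = ⇑(B.toBasis.repr x) := by
      funext j
      simp
    rw [h5, this]
    simp [T]
  obtain ⟨d, hd⟩ : ∃ d : Fin 3 → ℝ, d = ![inner ℝ v' c, inner ℝ e a, inner ℝ (B 2) a] := ⟨_, rfl⟩
  have hsub : {x : E | dl u (x - a) < b ∧ dl v (x - c) < b} ⊆
      T ⁻¹' {y : E | ∀ i, |B.repr y i - d i| < b} := by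
    rintro x ⟨hx1, hx2⟩
    have h2u : (inner ℝ (B 2) u : ℝ) = 0 := by
      rw [← hB0]
      exact B.orthonormal.inner_eq_zero (by decide)
    have k0 := (vo2_le hv'n hv'v (x - c)).trans_lt hx2
    have k1 := (vo2_le hen heu (x - a)).trans_lt hx1
    have k2 := (vo2_le (B.orthonormal.norm_eq_one 2) h2u (x - a)).trans_lt hx1
    rw [inner_sub_right] at k0 k1 k2
    have r0 : B.repr x 0 = inner ℝ u x := by rw [B.repr_apply_apply, hB0]
    have r1 : B.repr x 1 = inner ℝ e x := by rw [B.repr_apply_apply, hB1]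
    have r2 : B.repr x 2 = inner ℝ (B 2) x := by rw [B.repr_apply_apply]
    have rv : (inner ℝ v' x : ℝ) = -s * inner ℝ u x + q * inner ℝ e x := by
      rw [hv', inner_add_left, inner_smul_left, inner_smul_left]
      simp
    intro i
    rw [hT, hd]
    fin_cases i
    · simp only [M, Matrix.mulVec, dotProduct, Fin.sum_univ_three]
      simp
      rw [r0, r1]
      rw [rv] at k0
      simpa using k0
    · simp only [M, Matrix.mulVec, dotProduct, Fin.sum_univ_three]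
      simp
      rw [r1]
      exact k1
    · simp only [M, Matrix.mulVec, dotProduct, Fin.sum_univ_three]
      simp
      rw [r2]
      exact k2
  have hT0 : LinearMap.det T ≠ 0 := by rw [hdet]; exact neg_ne_zero.2 h0.ne'
  calc ENNReal.ofReal s * volume {x : E | dl u (x - a) < b ∧ dl v (x - c) < b}
      ≤ ENNReal.ofReal s * volume (T ⁻¹' {y : E | ∀ i, |B.repr y i - d i| < b}) := by
        gcongr
    _ = ENNReal.ofReal s * (ENNReal.ofReal |(LinearMap.det T)⁻¹| *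
          volume {y : E | ∀ i, |B.repr y i - d i| < b}) := by
        rw [Measure.addHaar_preimage_linearMap volume hT0]
    _ = ENNReal.ofReal (8 * b ^ 3) := by
        rw [vo2_box B d hb, hdet, ← mul_assoc, ← ENNReal.ofReal_mul h0.le]
        have : s * |(-s)⁻¹| = 1 := by
          rw [abs_inv, abs_neg, abs_of_pos h0]
          exact mul_inv_cancel₀ h0.ne'
        rw [this]
        simp
    _ ≤ ENNReal.ofReal (8 * b ^ 3) := le_rfl
-- END vo2

-- BEGIN it2
/-- `ofReal (ms u f x b) = (lw f) {y | dl u (x - y) < b}` = integral of an indicator (as `Vsn.ms_integral`, row mtb); the product is the integral over `(y, z)` of `1 (dl u (x - y) < b) 1 (dl v (x - z) < b)`; `lintegral_lintegral_swap` twice, row vo2 with `a = y`, `c = z`, total masses 1. -/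
theorem int_two {f h : E → ℝ≥0} (hf : Measurable f) (hf1 : ∫⁻ x, (f x : ℝ≥0∞) = 1)
    (hh : Measurable h) (hh1 : ∫⁻ x, (h x : ℝ≥0∞) = 1) {u v : E} (hu : ‖u‖ = 1) (hv : ‖v‖ = 1)
    {b : ℝ} (hb : 0 < b) :
    ENNReal.ofReal (dl u v) * ∫⁻ x, ENNReal.ofReal (ms u f x b) * ENNReal.ofReal (ms v h x b) ≤
      ENNReal.ofReal (8 * b ^ 3) := by
  have hP : IsProbabilityMeasure (lw f) := Pool.Agent.Vor.main_prob hf1
  have hQ : IsProbabilityMeasure (lw h) := Pool.Agent.Vor.main_prob hh1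
  have hcu : Measurable (dl u) := (Pool.Agent.Vor.dl_basic hu).1.measurable
  have hcv : Measurable (dl v) := (Pool.Agent.Vor.dl_basic hv).1.measurable
  set S : Set (E × (E × E)) := {p | dl u (p.1 - p.2.1) < b ∧ dl v (p.1 - p.2.2) < b} with hS
  have hSm : MeasurableSet S := by
    apply MeasurableSet.inter
    · exact measurableSet_lt (hcu.comp (measurable_fst.sub (measurable_fst.comp measurable_snd)))
        measurable_const
    · exact measurableSet_lt (hcv.comp (measurable_fst.sub (measurable_snd.comp measurable_snd)))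
        measurable_const
  have e1 : ∀ x, ENNReal.ofReal (ms u f x b) * ENNReal.ofReal (ms v h x b) =
      ((lw f).prod (lw h)) (Prod.mk x ⁻¹' S) := by
    intro x
    have e2 : Prod.mk x ⁻¹' S = {y | dl u (x - y) < b} ×ˢ {z | dl v (x - z) < b} := rfl
    rw [e2, Measure.prod_prod]
    unfold ms
    rw [ofReal_measureReal (measure_ne_top _ _), ofReal_measureReal (measure_ne_top _ _)]
  rw [lintegral_congr e1, ← Measure.prod_apply hSm, Measure.prod_apply_symm hSm,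
    ← lintegral_const_mul' _ _ ENNReal.ofReal_ne_top]
  calc ∫⁻ q, ENNReal.ofReal (dl u v) * volume ((fun x => (x, q)) ⁻¹' S) ∂((lw f).prod (lw h))
      ≤ ∫⁻ _, ENNReal.ofReal (8 * b ^ 3) ∂((lw f).prod (lw h)) :=
        lintegral_mono fun q => vol_two hu hv q.1 q.2 hb
    _ = ENNReal.ofReal (8 * b ^ 3) := by
        rw [lintegral_const, measure_univ, mul_one]
-- END it2

-- BEGIN sp2
private theorem sp2_box {δ : ℝ} (hδ : 0 < δ) (k : Fin 3 → ℤ) :
    MeasurableSet {x : E | ∀ c, (k c : ℝ) * δ < x c ∧ x c < ((k c : ℝ) + 1) * δ} ∧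
    volume {x : E | ∀ c, (k c : ℝ) * δ < x c ∧ x c < ((k c : ℝ) + 1) * δ} = ENNReal.ofReal (δ ^ 3) := by
  have hpre : {x : E | ∀ c, (k c : ℝ) * δ < x c ∧ x c < ((k c : ℝ) + 1) * δ} =
      (@WithLp.ofLp 2 (Fin 3 → ℝ)) ⁻¹'
        (Set.pi univ fun c => Ioo ((k c : ℝ) * δ) (((k c : ℝ) + 1) * δ)) := by
    ext x
    simp only [mem_ofPred_eq, mem_preimage, Set.mem_pi, mem_univ, true_implies, mem_Ioo]
  have hmp := PiLp.volume_preserving_ofLp (Fin 3)
  have hms : MeasurableSet (Set.pi univ fun c : Fin 3 => Ioo ((k c : ℝ) * δ) (((k c : ℝ) + 1) * δ)) :=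
    MeasurableSet.univ_pi fun _ => measurableSet_Ioo
  rw [hpre]
  refine ⟨hmp.measurable hms, ?_⟩
  rw [hmp.measure_preimage hms.nullMeasurableSet, Real.volume_pi_Ioo]
  have e : ∀ c : Fin 3, ENNReal.ofReal (((k c : ℝ) + 1) * δ - (k c : ℝ) * δ) = ENNReal.ofReal δ := by
    intro c
    congr 1
    ring
  rw [Finset.prod_congr rfl fun c _ => e c, Finset.prod_const, Finset.card_univ, Fintype.card_fin,
    ENNReal.ofReal_pow hδ.le]

private theorem sp2_norm {x : E} {a : ℝ} (h : ∀ c, |x c| ≤ a) (ha : 0 ≤ a) : ‖x‖ ≤ 7 / 4 * a := by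
  rw [EuclideanSpace.norm_eq, Real.sqrt_le_left (by positivity)]
  simp only [Real.norm_eq_abs, sq_abs, Fin.sum_univ_three]
  have h0 : ∀ c, x c ^ 2 ≤ a ^ 2 := fun c => by
    rw [← sq_abs (x c)]
    exact pow_le_pow_left₀ (abs_nonneg _) (h c) 2
  have := h0 0
  have := h0 1
  have := h0 2
  nlinarith

/-- As `Vsn.card_bad` (row bdc): for `x` in the open cell of `k` (volume `σ³`, disjoint cells, distance from the centre `< σ`) `ms u f (ctr σ k) (41σ) ≤ ms u f x (42σ)`, same for `v`, `h`; so `σ³ ∑ k ≤ ∫ ms .. x (42σ) * ms .. x (42σ)`, row it2 with `b = 42σ`: `8 · 42³ = 592704`. -/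
theorem sum_pair {f h : E → ℝ≥0} (hf : Measurable f) (hf1 : ∫⁻ x, (f x : ℝ≥0∞) = 1)
    (hh : Measurable h) (hh1 : ∫⁻ x, (h x : ℝ≥0∞) = 1) {u v : E} (hu : ‖u‖ = 1) (hv : ‖v‖ = 1)
    {σ : ℝ} (hσ : 0 < σ) :
    ∑ k ∈ rng σ, ms u f (ctr σ k) (41 * σ) * ms v h (ctr σ k) (41 * σ) * dl u v ≤ 600000 := by
  classical
  set U : (Fin 3 → ℤ) → Set E := fun k => {x : E | ∀ c, (k c : ℝ) * σ < x c ∧ x c < ((k c : ℝ) + 1) * σ}
    with hU
  set S : E → ℝ≥0∞ := fun x =>
    ENNReal.ofReal (ms u f x (42 * σ)) * ENNReal.ofReal (ms v h x (42 * σ)) with hS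
  have hdl : 0 ≤ dl u v := norm_nonneg _
  have hup : ENNReal.ofReal (dl u v) * ∫⁻ x, S x ≤ ENNReal.ofReal (8 * (42 * σ) ^ 3) :=
    int_two hf hf1 hh hh1 hu hv (by positivity)
  have hpt : ∀ k ∈ rng σ, ∀ x ∈ U k, ENNReal.ofReal (ms u f (ctr σ k) (41 * σ) *
      ms v h (ctr σ k) (41 * σ)) ≤ S x := by
    intro k _ x hx
    have hd : ‖ctr σ k - x‖ ≤ σ := by
      have h2 : ∀ c, |(ctr σ k - x) c| ≤ σ / 2 := by
        intro c
        have h3 := hx c
        have h4 : (ctr σ k - x) c = ((k c : ℝ) + 1 / 2) * σ - x c := rfl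
        rw [h4, abs_le]
        constructor <;> nlinarith [h3.1, h3.2]
      have := sp2_norm h2 (by positivity)
      linarith
    have a1 := (Pool.Agent.Vsn.ms_basic hf1 hu (ctr σ k) (41 * σ)).2.2 x (42 * σ) (by linarith)
    have a2 := (Pool.Agent.Vsn.ms_basic hh1 hv (ctr σ k) (41 * σ)).2.2 x (42 * σ) (by linarith)
    have b1 := (Pool.Agent.Vsn.ms_basic hf1 hu (ctr σ k) (41 * σ)).1
    rw [ENNReal.ofReal_mul b1]
    exact mul_le_mul' (ENNReal.ofReal_le_ofReal a1) (ENNReal.ofReal_le_ofReal a2)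
  have hdisj : Set.PairwiseDisjoint (↑(rng σ)) U := by
    intro k _ k' _ hne
    rw [Function.onFun, Set.disjoint_left]
    intro x hx hx'
    apply hne
    funext c
    have a1 := hx c
    have a2 := hx' c
    have b1 : (k c : ℝ) < (k' c : ℝ) + 1 := by
      by_contra hcon
      push Not at hcon
      nlinarith [a1.1, a2.2]
    have b2 : (k' c : ℝ) < (k c : ℝ) + 1 := by
      by_contra hcon
      push Not at hcon
      nlinarith [a2.1, a1.2]
    have c1 : k c < k' c + 1 := by exact_mod_cast b1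
    have c2 : k' c < k c + 1 := by exact_mod_cast b2
    omega
  have hnn : ∀ k ∈ rng σ, 0 ≤ ms u f (ctr σ k) (41 * σ) * ms v h (ctr σ k) (41 * σ) := fun k _ =>
    mul_nonneg (Pool.Agent.Vsn.ms_basic hf1 hu (ctr σ k) (41 * σ)).1
      (Pool.Agent.Vsn.ms_basic hh1 hv (ctr σ k) (41 * σ)).1
  have hlow : ENNReal.ofReal ((∑ k ∈ rng σ, ms u f (ctr σ k) (41 * σ) *
      ms v h (ctr σ k) (41 * σ)) * σ ^ 3) ≤ ∫⁻ x, S x := by
    calc ENNReal.ofReal ((∑ k ∈ rng σ, ms u f (ctr σ k) (41 * σ) *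
          ms v h (ctr σ k) (41 * σ)) * σ ^ 3)
        = ∑ k ∈ rng σ, ENNReal.ofReal (ms u f (ctr σ k) (41 * σ) *
          ms v h (ctr σ k) (41 * σ)) * ENNReal.ofReal (σ ^ 3) := by
          rw [ENNReal.ofReal_mul (Finset.sum_nonneg hnn), ENNReal.ofReal_sum_of_nonneg hnn,
            Finset.sum_mul]
      _ ≤ ∑ k ∈ rng σ, ∫⁻ x in U k, S x := by
          refine Finset.sum_le_sum fun k hk => ?_
          have h2 : ENNReal.ofReal (ms u f (ctr σ k) (41 * σ) * ms v h (ctr σ k) (41 * σ)) *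
              ENNReal.ofReal (σ ^ 3) = ∫⁻ _ in U k, ENNReal.ofReal (ms u f (ctr σ k) (41 * σ) *
                ms v h (ctr σ k) (41 * σ)) := by
            rw [setLIntegral_const, (sp2_box hσ k).2]
          rw [h2]
          exact setLIntegral_mono' (sp2_box hσ k).1 (hpt k hk)
      _ = ∫⁻ x in ⋃ k ∈ rng σ, U k, S x :=
          (lintegral_biUnion_finset hdisj (fun k _ => (sp2_box hσ k).1) S).symm
      _ ≤ ∫⁻ x, S x := setLIntegral_le_lintegral _ _
  have hfin : ENNReal.ofReal (dl u v * ((∑ k ∈ rng σ, ms u f (ctr σ k) (41 * σ) *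
      ms v h (ctr σ k) (41 * σ)) * σ ^ 3)) ≤ ENNReal.ofReal (8 * (42 * σ) ^ 3) := by
    rw [ENNReal.ofReal_mul hdl]
    exact (mul_le_mul_right hlow _).trans hup
  rw [ENNReal.ofReal_le_ofReal_iff (by positivity)] at hfin
  rw [← Finset.sum_mul]
  have hσ3 : 0 < σ ^ 3 := by positivity
  have h2 : ((∑ k ∈ rng σ, ms u f (ctr σ k) (41 * σ) * ms v h (ctr σ k) (41 * σ)) * dl u v) * σ ^ 3 ≤
      592704 * σ ^ 3 := by
    nlinarith
  have h3 := le_of_mul_le_mul_right h2 hσ3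
  linarith
-- END sp2

-- BEGIN sm1
private theorem sm1_meas {f : E → ℝ≥0} (hm : Measurable f) (h1 : ∫⁻ x, (f x : ℝ≥0∞) = 1) {u : E}
    (hu : ‖u‖ = 1) (D : ℝ) : Measurable fun x : E => ENNReal.ofReal (ms u f x D) := by
  have e : (fun x : E => ENNReal.ofReal (ms u f x D)) =
      fun x => ∫⁻ w in {w : E | dl u w < D}, (f (x - w) : ℝ≥0∞) :=
    funext fun x => Pool.Agent.Vsn.ms_eq hm h1 hu x D
  rw [e]
  exact Measurable.lintegral_prod_right' (f := fun p : E × E => ((f (p.1 - p.2) : ℝ≥0) : ℝ≥0∞))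
    ((hm.comp (measurable_fst.sub measurable_snd)).coe_nnreal_ennreal)

private theorem sm1_box {δ : ℝ} (hδ : 0 < δ) (k : Fin 3 → ℤ) :
    MeasurableSet {x : E | ∀ c, (k c : ℝ) * δ < x c ∧ x c < ((k c : ℝ) + 1) * δ} ∧
    volume {x : E | ∀ c, (k c : ℝ) * δ < x c ∧ x c < ((k c : ℝ) + 1) * δ} = ENNReal.ofReal (δ ^ 3) := by
  have hpre : {x : E | ∀ c, (k c : ℝ) * δ < x c ∧ x c < ((k c : ℝ) + 1) * δ} =
      (@WithLp.ofLp 2 (Fin 3 → ℝ)) ⁻¹'
        (Set.pi univ fun c => Ioo ((k c : ℝ) * δ) (((k c : ℝ) + 1) * δ)) := by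
    ext x
    simp only [mem_ofPred_eq, mem_preimage, Set.mem_pi, mem_univ, true_implies, mem_Ioo]
  have hmp := PiLp.volume_preserving_ofLp (Fin 3)
  have hms : MeasurableSet (Set.pi univ fun c : Fin 3 => Ioo ((k c : ℝ) * δ) (((k c : ℝ) + 1) * δ)) :=
    MeasurableSet.univ_pi fun _ => measurableSet_Ioo
  rw [hpre]
  refine ⟨hmp.measurable hms, ?_⟩
  rw [hmp.measure_preimage hms.nullMeasurableSet, Real.volume_pi_Ioo]
  have e : ∀ c : Fin 3, ENNReal.ofReal (((k c : ℝ) + 1) * δ - (k c : ℝ) * δ) = ENNReal.ofReal δ := by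
    intro c
    congr 1
    ring
  rw [Finset.prod_congr rfl fun c _ => e c, Finset.prod_const, Finset.card_univ, Fintype.card_fin,
    ENNReal.ofReal_pow hδ.le]

private theorem sm1_norm {x : E} {a : ℝ} (h : ∀ c, |x c| ≤ a) (ha : 0 ≤ a) : ‖x‖ ≤ 7 / 4 * a := by
  rw [EuclideanSpace.norm_eq, Real.sqrt_le_left (by positivity)]
  simp only [Real.norm_eq_abs, sq_abs, Fin.sum_univ_three]
  have h0 : ∀ c, x c ^ 2 ≤ a ^ 2 := fun c => by
    rw [← sq_abs (x c)]
    exact pow_le_pow_left₀ (abs_nonneg _) (h c) 2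
  have := h0 0
  have := h0 1
  have := h0 2
  nlinarith

/-- As `Vsn.card_bad` (row bdc): `σ³ ∑ k, ms (u i) (f i) (ctr σ k) (41σ) ≤ ∫ over closedBall 0 4 of ms .. x (42σ) ≤ 8π (42σ)²` (`Vsn.ms_integral`); `8π · 42² ≤ 45000`; sum over `i`. -/
theorem sum_mass {n : ℕ} {f : Fin n → E → ℝ≥0} (hm : ∀ i, Measurable (f i))
    (h1 : ∀ i, ∫⁻ x, (f i x : ℝ≥0∞) = 1) {u : Fin n → E} (hu : ∀ i, ‖u i‖ = 1) {σ : ℝ}
    (hσ : 0 < σ) (hσ1 : σ ≤ 1 / 40) :
    ∑ k ∈ rng σ, ∑ i, ms (u i) (f i) (ctr σ k) (41 * σ) ≤ 45000 * n / σ := by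
  classical
  set U : (Fin 3 → ℤ) → Set E := fun k => {x : E | ∀ c, (k c : ℝ) * σ < x c ∧ x c < ((k c : ℝ) + 1) * σ}
    with hU
  set S : E → ℝ≥0∞ := fun x => ∑ i, ENNReal.ofReal (ms (u i) (f i) x (42 * σ)) with hS
  set M : (Fin 3 → ℤ) → ℝ := fun k => ∑ i, ms (u i) (f i) (ctr σ k) (41 * σ) with hM
  have hM0 : ∀ k, 0 ≤ M k := fun k => Finset.sum_nonneg fun i _ =>
    (Pool.Agent.Vsn.ms_basic (h1 i) (hu i) (ctr σ k) (41 * σ)).1
  have hmeas : ∀ i, Measurable fun x => ENNReal.ofReal (ms (u i) (f i) x (42 * σ)) :=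
    fun i => sm1_meas (hm i) (h1 i) (hu i) _
  have hup : ∫⁻ x in Metric.closedBall (0 : E) 4, S x ≤
      ENNReal.ofReal ((n : ℝ) * (8 * Real.pi * (42 * σ) ^ 2)) := by
    rw [hS, lintegral_finsetSum _ (fun i _ => hmeas i)]
    refine (Finset.sum_le_sum fun i _ =>
      Pool.Agent.Vsn.ms_integral (hm i) (h1 i) (hu i) (by positivity)).trans ?_
    rw [Finset.sum_const, Finset.card_univ, Fintype.card_fin, nsmul_eq_mul,
      ENNReal.ofReal_mul (Nat.cast_nonneg _), ENNReal.ofReal_natCast]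
  have hpt : ∀ k ∈ rng σ, ∀ x ∈ U k, ENNReal.ofReal (M k) ≤ S x := by
    intro k _ x hx
    have hd : ‖ctr σ k - x‖ ≤ σ := by
      have h2 : ∀ c, |(ctr σ k - x) c| ≤ σ / 2 := by
        intro c
        have h3 := hx c
        have h4 : (ctr σ k - x) c = ((k c : ℝ) + 1 / 2) * σ - x c := rfl
        rw [h4, abs_le]
        constructor <;> nlinarith [h3.1, h3.2]
      have := sm1_norm h2 (by positivity)
      linarith
    have hle : M k ≤ ∑ i, ms (u i) (f i) x (42 * σ) := by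
      refine Finset.sum_le_sum fun i _ => ?_
      exact (Pool.Agent.Vsn.ms_basic (h1 i) (hu i) (ctr σ k) (41 * σ)).2.2 x (42 * σ) (by linarith)
    have e : S x = ENNReal.ofReal (∑ i, ms (u i) (f i) x (42 * σ)) := by
      rw [ENNReal.ofReal_sum_of_nonneg]
      intro i _
      exact (Pool.Agent.Vsn.ms_basic (h1 i) (hu i) x (42 * σ)).1
    rw [e]
    exact ENNReal.ofReal_le_ofReal hle
  have hsub : (⋃ k ∈ rng σ, U k) ⊆ Metric.closedBall (0 : E) 4 := by
    intro x hx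
    simp only [mem_iUnion] at hx
    obtain ⟨k, hkr, hxk⟩ := hx
    have hk2 := Fintype.mem_piFinset.mp hkr
    rw [mem_closedBall_zero_iff]
    have hfl : (⌊2 / σ⌋ : ℝ) * σ ≤ 2 := by
      have h5 : (⌊2 / σ⌋ : ℝ) ≤ 2 / σ := Int.floor_le _
      calc (⌊2 / σ⌋ : ℝ) * σ ≤ 2 / σ * σ := mul_le_mul_of_nonneg_right h5 hσ.le
        _ = 2 := by field_simp
    have h2 : ∀ c, |x c| ≤ 2 + 1 / 40 := by
      intro c
      have h3 := hxk c
      obtain ⟨h4, h5⟩ := Finset.mem_Icc.mp (hk2 c)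
      have h6 : -(⌊2 / σ⌋ : ℝ) ≤ (k c : ℝ) := by exact_mod_cast h4
      have h7 : (k c : ℝ) ≤ (⌊2 / σ⌋ : ℝ) := by exact_mod_cast h5
      have h8 : -(⌊2 / σ⌋ : ℝ) * σ ≤ (k c : ℝ) * σ := mul_le_mul_of_nonneg_right h6 hσ.le
      have h9 : (k c : ℝ) * σ ≤ (⌊2 / σ⌋ : ℝ) * σ := mul_le_mul_of_nonneg_right h7 hσ.le
      rw [abs_le]
      constructor <;> nlinarith [h3.1, h3.2]
    have := sm1_norm h2 (by norm_num)
    linarith
  have hdisj : Set.PairwiseDisjoint (↑(rng σ)) U := by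
    intro k _ k' _ hne
    rw [Function.onFun, Set.disjoint_left]
    intro x hx hx'
    apply hne
    funext c
    have a1 := hx c
    have a2 := hx' c
    have b1 : (k c : ℝ) < (k' c : ℝ) + 1 := by
      by_contra hcon
      push Not at hcon
      nlinarith [a1.1, a2.2]
    have b2 : (k' c : ℝ) < (k c : ℝ) + 1 := by
      by_contra hcon
      push Not at hcon
      nlinarith [a2.1, a1.2]
    have c1 : k c < k' c + 1 := by exact_mod_cast b1
    have c2 : k' c < k c + 1 := by exact_mod_cast b2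
    omega
  have hlow : ENNReal.ofReal (∑ k ∈ rng σ, M k * σ ^ 3) ≤
      ∫⁻ x in Metric.closedBall (0 : E) 4, S x := by
    calc ENNReal.ofReal (∑ k ∈ rng σ, M k * σ ^ 3)
        = ∑ k ∈ rng σ, ENNReal.ofReal (M k * σ ^ 3) :=
          ENNReal.ofReal_sum_of_nonneg fun k _ => mul_nonneg (hM0 k) (by positivity)
      _ ≤ ∑ k ∈ rng σ, ∫⁻ x in U k, S x := by
          refine Finset.sum_le_sum fun k hk => ?_
          have h2 : ENNReal.ofReal (M k * σ ^ 3) = ∫⁻ _ in U k, ENNReal.ofReal (M k) := by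
            rw [setLIntegral_const, (sm1_box hσ k).2, ← ENNReal.ofReal_mul (hM0 k)]
          rw [h2]
          exact setLIntegral_mono' (sm1_box hσ k).1 (hpt k hk)
      _ = ∫⁻ x in ⋃ k ∈ rng σ, U k, S x :=
          (lintegral_biUnion_finset hdisj (fun k _ => (sm1_box hσ k).1) S).symm
      _ ≤ ∫⁻ x in Metric.closedBall (0 : E) 4, S x := lintegral_mono_set hsub
  have hfin := hlow.trans hup
  rw [ENNReal.ofReal_le_ofReal_iff (by positivity), ← Finset.sum_mul] at hfin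
  rw [le_div_iff₀ hσ]
  have hpi := Real.pi_lt_d4
  have hn : (0 : ℝ) ≤ n := Nat.cast_nonneg n
  have h2 : ((∑ k ∈ rng σ, M k) * σ) * σ ^ 2 ≤ ((n : ℝ) * (8 * Real.pi * 1764)) * σ ^ 2 := by
    nlinarith
  have h3 : (∑ k ∈ rng σ, M k) * σ ≤ (n : ℝ) * (8 * Real.pi * 1764) :=
    le_of_mul_le_mul_right h2 (by positivity)
  have h4 : (n : ℝ) * (8 * Real.pi * 1764) ≤ n * 45000 :=
    mul_le_mul_of_nonneg_left (by nlinarith) hn
  linarith
-- END sm1

-- BEGIN fin
private theorem fin_num {n : ℕ} (hn : 0 < n) {l : ℝ} (hl : 1 ≤ l) {c SA SB R : ℝ}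
    (hc : c ≤ (500 * l) ^ 3) (hA0 : 0 ≤ SA) (hA : SA ≤ 4500000 * n * l)
    (hB0 : 0 ≤ SB) (hB : SB ≤ 600000 * n ^ 2) (hR : R ≤ Real.sqrt SA * Real.sqrt SB) :
    c + SA + R ≤ 1000000000 * (Real.sqrt l * n ^ (3 / 2 : ℝ) + l ^ 3) := by
  have hn1 : (1 : ℝ) ≤ n := by exact_mod_cast hn
  have hn0 : (0 : ℝ) < n := by linarith
  have hl0 : (0 : ℝ) < l := by linarith
  have e32 : (n : ℝ) ^ (3 / 2 : ℝ) = n * Real.sqrt n := by
    rw [Real.sqrt_eq_rpow, show (3 / 2 : ℝ) = 1 + 1 / 2 by norm_num, Real.rpow_add hn0,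
      Real.rpow_one]
  rw [e32]
  have hsl : 0 ≤ Real.sqrt l := Real.sqrt_nonneg _
  have hsn : 0 ≤ Real.sqrt n := Real.sqrt_nonneg _
  have hsl2 : Real.sqrt l * Real.sqrt l = l := Real.mul_self_sqrt hl0.le
  have hsn2 : Real.sqrt n * Real.sqrt n = n := Real.mul_self_sqrt hn0.le
  set T : ℝ := Real.sqrt l * (n * Real.sqrt n) with hT
  have hT0 : 0 ≤ T := by positivity
  have hl3 : 0 ≤ l ^ 3 := by positivity
  have hnl : n * l ≤ T + l ^ 3 := by
    rcases le_total l n with h | h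
    · have h2 : Real.sqrt l ≤ Real.sqrt n := Real.sqrt_le_sqrt h
      have h3 : n * l ≤ T := by
        calc (n : ℝ) * l = n * (Real.sqrt l * Real.sqrt l) := by rw [hsl2]
          _ ≤ n * (Real.sqrt l * Real.sqrt n) := by gcongr
          _ = T := by rw [hT]; ring
      linarith
    · have h2 : n * l ≤ l ^ 3 := by
        calc (n : ℝ) * l ≤ l * l := by gcongr
          _ ≤ l * l * l := le_mul_of_one_le_right (by positivity) hl
          _ = l ^ 3 := by ring
      linarith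
  have hroot : Real.sqrt SA * Real.sqrt SB ≤ 1650000 * T := by
    rw [← Real.sqrt_mul hA0, Real.sqrt_le_left (by positivity)]
    have h2 : SA * SB ≤ (4500000 * n * l) * (600000 * n ^ 2) :=
      mul_le_mul hA hB hB0 (by positivity)
    have h3 : (1650000 * T) ^ 2 = 1650000 ^ 2 * (l * n ^ 3) := by
      rw [hT]
      calc (1650000 * (Real.sqrt l * (n * Real.sqrt n))) ^ 2
          = 1650000 ^ 2 * ((Real.sqrt l * Real.sqrt l) * (n ^ 2 * (Real.sqrt n * Real.sqrt n))) := by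
            ring
        _ = 1650000 ^ 2 * (l * n ^ 3) := by rw [hsl2, hsn2]; ring
    rw [h3]
    refine h2.trans ?_
    have h4 : 0 ≤ l * (n : ℝ) ^ 3 := by positivity
    nlinarith
  have e5 : (500 * l) ^ 3 = 125000000 * l ^ 3 := by ring
  rw [e5] at hc
  nlinarith

/-- `σ = 1/(100 l)`. `Vsn.card_rng`, rows sm1, sp2 (sum over the `n²` pairs), `Finset.sum_sqrt_mul_sqrt_le`: the sum is `≤ (500 l)³ + 4500000 n l + √(4500000 n l · 600000 n²)`, `n l ≤ √l n^(3/2) + l³` (`l ≤ n` or `l > n`), `n^(3/2) = n √n`. -/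
theorem sum_final {n : ℕ} (hn : 0 < n) {l : ℝ} (hl : 1 ≤ l) {f : Fin n → E → ℝ≥0}
    (hm : ∀ i, Measurable (f i)) (h1 : ∀ i, ∫⁻ x, (f i x : ℝ≥0∞) = 1) {u : Fin n → E}
    (hu : ∀ i, ‖u i‖ = 1) {σ : ℝ} (hσ : σ = 1 / (100 * l)) :
    ∑ k ∈ rng σ, (1 + ∑ i, ms (u i) (f i) (ctr σ k) (41 * σ) +
      Real.sqrt ((∑ i, ms (u i) (f i) (ctr σ k) (41 * σ)) * ∑ i, ∑ j,
        ms (u i) (f i) (ctr σ k) (41 * σ) * ms (u j) (f j) (ctr σ k) (41 * σ) * dl (u i) (u j))) ≤
      1000000000 * (Real.sqrt l * n ^ (3 / 2 : ℝ) + l ^ 3) := by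
  have hl0 : 0 < l := by linarith
  have hσ0 : 0 < σ := by rw [hσ]; positivity
  have hσ1 : σ ≤ 1 / 40 := by
    rw [hσ]
    exact one_div_le_one_div_of_le (by norm_num) (by linarith)
  have hms : ∀ i g D, 0 ≤ ms (u i) (f i) g D := fun i g D => (Pool.Agent.Vsn.ms_basic (h1 i) (hu i) g D).1
  have hdl : ∀ i j, 0 ≤ dl (u i) (u j) := fun i j => (Pool.Agent.Vor.dl_basic (hu i)).2.1 _
  have hA0 : ∀ k : Fin 3 → ℤ, 0 ≤ ∑ i, ms (u i) (f i) (ctr σ k) (41 * σ) :=
    fun k => Finset.sum_nonneg fun i _ => hms i _ _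
  have hB0 : ∀ k : Fin 3 → ℤ, 0 ≤ ∑ i, ∑ j,
      ms (u i) (f i) (ctr σ k) (41 * σ) * ms (u j) (f j) (ctr σ k) (41 * σ) * dl (u i) (u j) :=
    fun k => Finset.sum_nonneg fun i _ => Finset.sum_nonneg fun j _ =>
      mul_nonneg (mul_nonneg (hms i _ _) (hms j _ _)) (hdl i j)
  rw [Finset.sum_add_distrib, Finset.sum_add_distrib]
  refine fin_num hn hl (SB := ∑ k ∈ rng σ, ∑ i, ∑ j,
      ms (u i) (f i) (ctr σ k) (41 * σ) * ms (u j) (f j) (ctr σ k) (41 * σ) * dl (u i) (u j))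
      ?_ (Finset.sum_nonneg fun k _ => hA0 k) ?_ (Finset.sum_nonneg fun k _ => hB0 k) ?_ ?_
  · rw [Finset.sum_const, nsmul_eq_mul, mul_one]
    refine (Pool.Agent.Vsn.card_rng hσ0 (by linarith)).trans_eq ?_
    rw [hσ]
    congr 1
    field_simp
    norm_num
  · refine (sum_mass hm h1 hu hσ0 hσ1).trans_eq ?_
    rw [hσ]
    field_simp
    norm_num
  · have e : ∑ k ∈ rng σ, ∑ i, ∑ j,
        ms (u i) (f i) (ctr σ k) (41 * σ) * ms (u j) (f j) (ctr σ k) (41 * σ) * dl (u i) (u j) =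
        ∑ i, ∑ j, ∑ k ∈ rng σ,
        ms (u i) (f i) (ctr σ k) (41 * σ) * ms (u j) (f j) (ctr σ k) (41 * σ) * dl (u i) (u j) := by
      rw [Finset.sum_comm]
      refine Finset.sum_congr rfl fun i _ => ?_
      rw [Finset.sum_comm]
    rw [e]
    refine (Finset.sum_le_sum fun i _ => Finset.sum_le_sum fun j _ =>
      sum_pair (hm i) (h1 i) (hm j) (h1 j) (hu i) (hu j) hσ0).trans_eq ?_
    rw [Finset.sum_const, Finset.sum_const, Finset.card_univ, Fintype.card_fin, nsmul_eq_mul,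
      nsmul_eq_mul]
    ring
  · refine le_trans (Finset.sum_le_sum fun k _ => ?_)
      (Real.sum_sqrt_mul_sqrt_le (rng σ) (fun k => hA0 k) (fun k => hB0 k))
    rw [Real.sqrt_mul (hA0 k)]
-- END fin

-- BEGIN mns
/-- `F` = the sum over `k ∈ rng σ`, `σ = 1/(100 l)`, of the functions of row bas for `x = ctr σ k`; `Vsn.cell_of`, `Vor.fle_union`, `lintegral_finsetSum`, row fin; `C = 10^9 · 10^15 · e^79`. -/
theorem main_sharp : ∃ C : ℝ, 0 < C ∧ ∀ (n : ℕ) (l : ℝ) (u : Fin n → E) (f : Fin n → E → ℝ≥0),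
    0 < n → 1 ≤ l → (∀ i, ‖u i‖ = 1) → (∀ i, Measurable (f i)) →
    (∀ i, ∫⁻ x, (f i x : ℝ≥0∞) = 1) → (∀ i, LL l (f i)) →
    ∃ F : (Fin n → E) → ℝ≥0∞, Measurable F ∧
      (∀ p, (({f | f ∈ Faces u p ∧ (f ∩ Metric.closedBall 0 1).Nonempty}.encard : ℕ∞) : ℝ≥0∞) ≤ F p) ∧
      ∫⁻ p, F p ∂(Measure.pi fun i => lw (f i)) ≤
        ENNReal.ofReal (C * (Real.sqrt l * n ^ (3 / 2 : ℝ) + l ^ 3)) := by
  refine ⟨1000000000 * (10 ^ 15 * Real.exp 79), by positivity, ?_⟩
  intro n l u f hn hl hu hm h1 hL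
  have hl0 : 0 < l := lt_of_lt_of_le one_pos hl
  obtain ⟨σ, hσ⟩ : ∃ σ : ℝ, σ = 1 / (100 * l) := ⟨_, rfl⟩
  have hσ0 : 0 < σ := by
    rw [hσ]
    positivity
  have hσ1 : σ ≤ 1 := by
    rw [hσ, div_le_one (by positivity)]
    linarith
  have hlσ : l * σ ≤ 1 / 100 := by
    rw [hσ]
    apply le_of_eq
    field_simp
  choose F hFm hFp hFi using fun k : Fin 3 → ℤ => base_cube hn hl0 hm h1 hL hu hσ0 hlσ (ctr σ k)
  refine ⟨fun p => ∑ k ∈ rng σ, F k p, Finset.measurable_sum _ fun k _ => hFm k, ?_, ?_⟩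
  · intro p
    set B : (Fin 3 → ℤ) → Set (Set E) := fun k =>
      {f | f ∈ Faces u p ∧ ∃ z ∈ f, ∀ c, |z c - ctr σ k c| ≤ σ / 2} with hB
    have hsub : {f | f ∈ Faces u p ∧ (f ∩ Metric.closedBall 0 1).Nonempty} ⊆ ⋃ k ∈ rng σ, B k := by
      rintro f ⟨hf, x, hxf, hx⟩
      rw [Metric.mem_closedBall, dist_zero_right] at hx
      obtain ⟨hq, hqx⟩ := Pool.Agent.Vsn.cell_of hσ0 hσ1 hx
      simp only [mem_iUnion]
      exact ⟨_, hq, hf, x, hxf, hqx⟩
    refine (ENat.toENNReal_mono (Set.encard_le_encard hsub)).trans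
      ((Pool.Agent.Vor.fle_union _ B).trans ?_)
    exact Finset.sum_le_sum fun k _ => hFp k p
  · rw [lintegral_finsetSum _ (fun k _ => hFm k)]
    refine (Finset.sum_le_sum fun k _ => hFi k).trans ?_
    rw [← ENNReal.ofReal_sum_of_nonneg]
    · apply ENNReal.ofReal_le_ofReal
      rw [← Finset.mul_sum]
      have h2 := sum_final hn hl hm h1 hu hσ
      refine (mul_le_mul_of_nonneg_left h2
        (by positivity : (0 : ℝ) ≤ 10 ^ 15 * Real.exp 79)).trans (le_of_eq ?_)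
      ring
    · intro k _
      have h3 : 0 ≤ ∑ i, ms (u i) (f i) (ctr σ k) (41 * σ) :=
        Finset.sum_nonneg fun i _ => measureReal_nonneg
      have h4 := Real.sqrt_nonneg ((∑ i, ms (u i) (f i) (ctr σ k) (41 * σ)) * ∑ i, ∑ j,
        ms (u i) (f i) (ctr σ k) (41 * σ) * ms (u j) (f j) (ctr σ k) (41 * σ) * dl (u i) (u j))
      exact mul_nonneg (by positivity) (by linarith)
-- END mns

end Pool.Agent.Van
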